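import Pool.Agent.Zk36.AC.Loc
import Pool.Agent.H12R2.Sep.Win2
import Pool.Agent.H12R2.Sep.WinHalf
import Pool.Agent.H12R2.Sep.Win1

/-!
# Almost sure Cardy formula: the probability of an open arm
-/

set_option autoImplicit false

namespace Pool.Agent.Zk36.AC

open Pool.Agent.H988R2.Perc (Conf OpenAdj perc coin Edge)
open H974 Finset MeasureTheory

theorem coin_sing (b : Bool) : coin {b} = 1 / 2 := by
  unfold coin
  rw [PMF.toMeasure_apply_singleton _ _ (measurableSet_singleton _)]
  simp

open Classical in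
/-- the open edges of a finite set -/
noncomputable def op (S : Finset Edg) (ω : Edg → Bool) : Finset Edg := S.filter (fun e => ω e = true)

/-- the cell of a finite configuration -/
def cell (S F : Finset Edg) : Set (Edg → Bool) := {ω | op S ω = F}

open Classical in
theorem cell_eq {S F : Finset Edg} (hF : F ⊆ S) :
    cell S F = Set.pi (S : Set Edg) (fun e => if e ∈ F then {true} else {false}) := by
  ext ω
  simp only [cell, op, Set.mem_ofPred_eq, Set.mem_pi, Finset.mem_coe]
  constructor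
  · rintro h e he
    by_cases heF : e ∈ F
    · rw [if_pos heF]
      rw [← h] at heF
      exact (Finset.mem_filter.1 heF).2
    · rw [if_neg heF, Set.mem_singleton_iff]
      by_contra hc
      have : ω e = true := by simpa using hc
      apply heF
      rw [← h]
      exact Finset.mem_filter.2 ⟨he, this⟩
  · intro h
    ext e
    rw [Finset.mem_filter]
    constructor
    · rintro ⟨he, ho⟩
      by_contra heF
      have := h e he
      rw [if_neg heF, Set.mem_singleton_iff, ho] at this
      exact absurd this (by simp)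
    · intro heF
      refine ⟨hF heF, ?_⟩
      have := h e (hF heF)
      rw [if_pos heF] at this
      exact this

theorem meas_cell {S F : Finset Edg} (hF : F ⊆ S) : MeasurableSet (cell S F) := by
  classical
  rw [cell_eq hF]
  apply MeasurableSet.pi S.countable_toSet
  intro e _
  exact (Set.toFinite _).measurableSet

theorem perc_cell {S F : Finset Edg} (hF : F ⊆ S) : perc.real (cell S F) = (1 / 2 : ℝ) ^ S.card := by
  classical
  rw [cell_eq hF, measureReal_def]
  unfold perc
  rw [Measure.infinitePi_pi]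
  · have : ∀ e ∈ S, coin (if e ∈ F then {true} else {false}) = 1 / 2 := by
      intro e _
      split_ifs
      · exact coin_sing true
      · exact coin_sing false
    rw [Finset.prod_congr rfl this, Finset.prod_const]
    simp
  · intro e _
    exact (Set.toFinite _).measurableSet

theorem event_eq (S : Finset Edg) (A : Finset Edg → Prop) [DecidablePred A] :
    {ω | A (op S ω)} = ⋃ F ∈ S.powerset.filter A, cell S F := by
  ext ω
  simp only [Set.mem_ofPred_eq, Set.mem_iUnion, exists_prop, Finset.mem_filter, Finset.mem_powerset, cell]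
  constructor
  · intro h
    exact ⟨op S ω, ⟨Finset.filter_subset _ _, h⟩, rfl⟩
  · rintro ⟨F, ⟨_, h⟩, rfl⟩
    exact h

theorem meas_event (S : Finset Edg) (A : Finset Edg → Prop) : MeasurableSet {ω | A (op S ω)} := by
  classical
  rw [event_eq]
  apply Finset.measurableSet_biUnion
  intro F hF
  exact meas_cell (Finset.mem_powerset.1 (Finset.mem_filter.1 hF).1)

/-- finite dimensional laws -/
theorem perc_event (S : Finset Edg) (A : Finset Edg → Prop) :
    perc.real {ω | A (op S ω)} = Pr (fun _ => (1 / 2 : ℝ)) S A := by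
  classical
  rw [event_eq, measureReal_biUnion_finset]
  · unfold Pr Ex
    rw [Finset.sum_filter]
    apply Finset.sum_congr rfl
    intro F hF
    have hFS := Finset.mem_powerset.1 hF
    rw [perc_cell hFS, Finset.prod_const, Finset.prod_const]
    have e : (1 / 2 : ℝ) ^ F.card * (1 - 1 / 2 : ℝ) ^ (S \ F).card = (1 / 2 : ℝ) ^ S.card := by
      have : (1 - 1 / 2 : ℝ) = 1 / 2 := by norm_num
      rw [this, ← pow_add]
      congr 1
      rw [Finset.card_sdiff_of_subset hFS]
      have := Finset.card_le_card hFS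
      omega
    rw [e]
    show _ = (1 / 2 : ℝ) ^ S.card * ind (A F)
    by_cases h : A F
    · rw [if_pos h, ind_of h, mul_one]
    · rw [if_neg h]
      simp [ind, h]
  · intro F _ F' _ hne
    apply Set.disjoint_left.2
    intro ω h1 h2
    exact hne (h1.symm.trans h2)
  · intro F hF
    exact meas_cell (Finset.mem_powerset.1 (Finset.mem_filter.1 hF).1)

/-- exchange of the two conventions for edges -/
def swE : Edge ≃ Edge where
  toFun := fun e => (e.1, e.2.1, !e.2.2)
  invFun := fun e => (e.1, e.2.1, !e.2.2)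
  left_inv := by rintro ⟨u, v, c⟩; simp
  right_inv := by rintro ⟨u, v, c⟩; simp

def sw (η : Conf) : Conf := fun e => η (swE e)

theorem sw_eq : sw = MeasurableEquiv.piCongrLeft (fun _ : Edge => Bool) swE := by
  funext ω i
  obtain ⟨j, rfl⟩ := swE.surjective i
  rw [MeasurableEquiv.coe_piCongrLeft, Equiv.piCongrLeft_apply_apply]
  show ω (swE (swE j)) = ω j
  congr 1
  exact swE.left_inv j

theorem perc_sw (A : Set Conf) : perc {ω | sw ω ∈ A} = perc A := by
  have h : perc.map (MeasurableEquiv.piCongrLeft (fun _ : Edge => Bool) swE) A =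
      perc ((MeasurableEquiv.piCongrLeft (fun _ : Edge => Bool) swE) ⁻¹' A) :=
    MeasurableEquiv.map_apply _ _
  have h2 : perc.map (MeasurableEquiv.piCongrLeft (fun _ : Edge => Bool) swE) = perc := by
    unfold perc
    exact Measure.infinitePi_map_piCongrLeft (fun _ : Edge => coin) swE
  rw [h2, ← sw_eq] at h
  exact h.symm

theorem adj_sw {η : Conf} {x y : ℤ × ℤ} (h : OpenAdj η x y) :
    H974.Adj {e | sw η e = true} x y := by
  rcases h with ⟨h1, h2⟩ | ⟨h1, h2⟩ | ⟨h1, h2⟩ | ⟨h1, h2⟩
  · exact ⟨(x.1, x.2, true), h2, Or.inl ⟨rfl, by rw [h1]; rfl⟩⟩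
  · exact ⟨(y.1, y.2, true), h2, Or.inr ⟨rfl, by rw [h1]; rfl⟩⟩
  · exact ⟨(x.1, x.2, false), h2, Or.inl ⟨rfl, by rw [h1]; rfl⟩⟩
  · exact ⟨(y.1, y.2, false), h2, Or.inr ⟨rfl, by rw [h1]; rfl⟩⟩

theorem reach_sw {η : Conf} {x y : ℤ × ℤ} (h : OC η x y) :
    Reach {e | sw η e = true} x y := by
  unfold OC at h
  induction h with
  | refl => exact Relation.ReflTransGen.refl
  | tail _ hs ih => exact ih.tail (adj_sw hs)

theorem arm_sub {r R : ℕ} (hR : 1 ≤ R) : Arm r R ⊆
    {η | sw η ∈ {ω : Conf | H12S.Crs 0 0 r R (↑(op (RE (-R) R (-R) R) ω) : Set Edg)}} := by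
  intro η h
  obtain ⟨x, y, hx, hy, h⟩ := h
  have h1 := reach_sw h
  obtain ⟨y', hy', h2⟩ := H12S.WA_cut src tgt (Q := fun z : ℤ × ℤ => (R : ℤ) ≤ nm z) h1 hy
  refine ⟨x, y', ?_, ?_, ?_⟩
  · rw [nm_le, abs_le, abs_le] at hx
    unfold inR
    push_cast
    omega
  · have h3 : (R : ℤ) ≤ nm y' := hy'
    rw [le_nm, le_abs, le_abs] at h3
    omega
  · refine Relation.ReflTransGen.mono ?_ _ _ h2
    rintro u v ⟨e, ⟨he1, he2⟩, he3⟩
    refine ⟨e, ?_, he3⟩
    rw [Finset.mem_coe]
    unfold op
    rw [Finset.mem_filter]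
    refine ⟨?_, he1⟩
    have h3 : ¬ ((R : ℤ) ≤ nm (src e) ∧ (R : ℤ) ≤ nm (tgt e)) := he2
    obtain ⟨a, b, c⟩ := e
    cases c
    · rw [mem_RE_false]
      simp only [src, tgt, Bool.false_eq_true, if_false, le_nm, le_abs] at h3
      omega
    · rw [mem_RE_true]
      simp only [src, tgt, if_true, le_nm, le_abs] at h3
      omega

/-- **One arm.** -/
theorem arm_bound : ∃ C c : ℝ, 0 < C ∧ 0 < c ∧ ∀ r R : ℕ, 1 ≤ r → r ≤ R →
    perc.real (Arm r R) ≤ C * ((r : ℝ) / R) ^ c := by
  obtain ⟨κ, hκ, hW⟩ := H12S.win_half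
  obtain ⟨C, c, hC, hc, harm⟩ := H12S.win_arm_of
    (fun h _ h1 h2 => fun c1 c2 S => H12S.win_blk h h1 h2 c1 c2 S) κ hκ
  refine ⟨C, c, hC, hc, fun r R hr hrR => ?_⟩
  have h1 := (harm (1/2) R (hW R) r R hr hrR le_rfl 0 0 (RE (-R) R (-R) R)).1
  refine le_trans ?_ h1
  have h2 := perc_event (RE (-(R:ℤ)) R (-(R:ℤ)) R) (fun F => H12S.Crs 0 0 r R (↑F : Set Edg))
  show _ ≤ Pr (fun _ => (1 / 2 : ℝ)) _ _
  rw [← h2]
  calc perc.real (Arm r R) ≤ perc.real {η | sw η ∈ {ω : Conf | H12S.Crs 0 0 r R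
        (↑(op (RE (-R) R (-R) R) ω) : Set Edg)}} := measureReal_mono (arm_sub (by omega))
    _ = _ := by rw [measureReal_def, perc_sw, measureReal_def]

theorem arm_mono {r r' R R' : ℤ} (h : r ≤ r') (h' : R' ≤ R) : Arm r R ⊆ Arm r' R' := by
  rintro η ⟨x, y, h1, h2, h3⟩
  exact ⟨x, y, h1.trans h, h'.trans h2, h3⟩

end Pool.Agent.Zk36.AC
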