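import Pool.Agent.H980R4.Rate4

/-!
# Almost sure Cardy formula: Cardy's function is Hölder continuous
-/

set_option autoImplicit false

namespace Pool.Agent.Zk36.AC

open Finset MeasureTheory Pool.Agent.H757R2.CardyLimit Pool.Agent.H980R4.Rate

theorem rpow_sub_le {x y : ℝ} (hx : 0 ≤ x) (hxy : x ≤ y) :
    y ^ (1/3 : ℝ) - x ^ (1/3 : ℝ) ≤ (y - x) ^ (1/3 : ℝ) := by
  have h := Real.rpow_add_le_add_rpow hx (sub_nonneg.2 hxy) (p := 1/3) (by norm_num) (by norm_num)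
  rw [show x + (y - x) = y by ring] at h
  linarith

theorem gd_le {t : ℝ} (h : t ∈ Set.Icc (0:ℝ) 1) :
    gd t ≤ 2 * (t ^ (-(2/3) : ℝ) + (1 - t) ^ (-(2/3) : ℝ)) := by
  have key : ∀ s : ℝ, 0 < s → s ≤ 1 / 2 → s ^ (-(2/3) : ℝ) * (1 - s) ^ (-(2/3) : ℝ) ≤
      2 * s ^ (-(2/3) : ℝ) := by
    intro s h1 h2
    have h3 : (1 - s) ^ (-(2/3) : ℝ) ≤ (1/2 : ℝ) ^ (-(2/3) : ℝ) :=
      Real.rpow_le_rpow_of_nonpos (by norm_num) (by linarith) (by norm_num)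
    have h4 : (1/2 : ℝ) ^ (-(2/3) : ℝ) ≤ (1/2 : ℝ) ^ (-1 : ℝ) :=
      Real.rpow_le_rpow_of_exponent_ge (by norm_num) (by norm_num) (by norm_num)
    have h5 : (1/2 : ℝ) ^ (-1 : ℝ) = 2 := by rw [Real.rpow_neg_one]; norm_num
    have h6 : 0 ≤ s ^ (-(2/3) : ℝ) := Real.rpow_nonneg h1.le _
    nlinarith
  rw [gd_mul h]
  obtain ⟨h0, h1⟩ := h
  have n1 : 0 ≤ t ^ (-(2/3) : ℝ) := Real.rpow_nonneg h0 _
  have n2 : 0 ≤ (1 - t) ^ (-(2/3) : ℝ) := Real.rpow_nonneg (by linarith) _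
  rcases eq_or_lt_of_le h0 with h2 | h2
  · subst h2
    rw [Real.zero_rpow (by norm_num)]
    simp only [zero_mul]
    nlinarith
  rcases eq_or_lt_of_le h1 with h3 | h3
  · subst h3
    rw [sub_self, Real.zero_rpow (by norm_num), mul_zero]
    nlinarith
  rcases le_total t (1/2) with h4 | h4
  · have := key t h2 h4
    linarith
  · have := key (1 - t) (by linarith) (by linarith)
    rw [sub_sub_cancel] at this
    linarith

theorem int_gd_le {x y : ℝ} (hx : 0 ≤ x) (hxy : x ≤ y) (hy : y ≤ 1) :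
    ∫ t in x..y, gd t ≤ 12 * (y - x) ^ (1/3 : ℝ) := by
  have i1 : IntervalIntegrable (fun t : ℝ => t ^ (-(2/3) : ℝ)) volume x y :=
    intervalIntegral.intervalIntegrable_rpow' (by norm_num)
  have i2 : IntervalIntegrable (fun t : ℝ => (1 - t) ^ (-(2/3) : ℝ)) volume x y := by
    have h := (intervalIntegral.intervalIntegrable_rpow' (r := (-(2/3) : ℝ)) (by norm_num) :
      IntervalIntegrable (fun t : ℝ => t ^ (-(2/3) : ℝ)) volume (1 - x) (1 - y))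
    have h2 := h.comp_sub_left 1
    simpa using h2
  have h1 : ∫ t in x..y, gd t ≤ ∫ t in x..y, 2 * (t ^ (-(2/3) : ℝ) + (1 - t) ^ (-(2/3) : ℝ)) := by
    refine intervalIntegral.integral_mono_on hxy (gd_int hx hxy hy) ((i1.add i2).const_mul 2) ?_
    intro t ht
    exact gd_le ⟨hx.trans ht.1, ht.2.trans hy⟩
  refine h1.trans ?_
  rw [intervalIntegral.integral_const_mul, intervalIntegral.integral_add i1 i2]
  have e1 : ∫ t in x..y, t ^ (-(2/3) : ℝ) = 3 * (y ^ (1/3 : ℝ) - x ^ (1/3 : ℝ)) := by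
    rw [integral_rpow (Or.inl (by norm_num))]
    norm_num
    ring
  have e2 : ∫ t in x..y, (1 - t) ^ (-(2/3) : ℝ) =
      3 * ((1 - x) ^ (1/3 : ℝ) - (1 - y) ^ (1/3 : ℝ)) := by
    rw [intervalIntegral.integral_comp_sub_left (fun t : ℝ => t ^ (-(2/3) : ℝ)) 1,
      integral_rpow (Or.inl (by norm_num))]
    norm_num
    ring
  rw [e1, e2]
  have h2 := rpow_sub_le hx hxy
  have h3 := rpow_sub_le (x := 1 - y) (y := 1 - x) (by linarith) (by linarith)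
  rw [show 1 - x - (1 - y) = y - x by ring] at h3
  linarith

theorem F_mono {x y : ℝ} (hx : 0 ≤ x) (hxy : x ≤ y) (hy : y ≤ 1) : F x ≤ F y := by
  have h := F_sub hx hxy hy
  have h2 : 0 ≤ (∫ t in x..y, gd t) / BB := div_nonneg (int_nonneg hx hxy hy) BB_pos.le
  linarith

theorem F_hol {x y : ℝ} (hx : 0 ≤ x) (hxy : x ≤ y) (hy : y ≤ 1) :
    F y - F x ≤ 6 * (y - x) ^ (1/3 : ℝ) := by
  rw [F_sub hx hxy hy, div_le_iff₀ BB_pos]
  have h1 := int_gd_le hx hxy hy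
  have h2 := BB_ge
  have h3 : 0 ≤ (y - x) ^ (1/3 : ℝ) := Real.rpow_nonneg (by linarith) _
  nlinarith

theorem F_abs {x y : ℝ} (hx : x ∈ Set.Icc (0:ℝ) 1) (hy : y ∈ Set.Icc (0:ℝ) 1) :
    |F y - F x| ≤ 6 * |y - x| ^ (1/3 : ℝ) := by
  rcases le_total x y with h | h
  · rw [abs_of_nonneg (sub_nonneg.2 (F_mono hx.1 h hy.2)), abs_of_nonneg (sub_nonneg.2 h)]
    exact F_hol hx.1 h hy.2
  · rw [abs_sub_comm, abs_of_nonneg (sub_nonneg.2 (F_mono hy.1 h hx.2)), abs_sub_comm y x,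
      abs_of_nonneg (sub_nonneg.2 h)]
    exact F_hol hy.1 h hx.2

theorem F_zero : F 0 = 0 := by simp [F]

theorem F_mem {x : ℝ} (hx : x ∈ Set.Icc (0:ℝ) 1) : F x ∈ Set.Icc (0:ℝ) 1 := by
  constructor
  · have := F_mono le_rfl hx.1 hx.2
    rwa [F_zero] at this
  · have := F_mono hx.1 hx.2 le_rfl
    rwa [F_one] at this

end Pool.Agent.Zk36.AC
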