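import Pool.Agent.Zk36.AC.Loc
import Pool.Agent.H984Q.Meas
import Pool.Agent.H492E.E3c

/-!
# Almost sure Cardy formula: the position of the tip in the range of the path
-/

set_option autoImplicit false

namespace Pool.Agent.Zk36.AC

open Pool.Agent.H988R2.Perc hiding X
open Pool.Agent.H31C Pool.Agent.H492E Pool.Agent.H984Q Finset MeasureTheory Filter

/-- the largest column on the right of the path up to time `n` -/
noncomputable def rm (ω : Conf) (n : ℕ) : ℤ :=
  (range (n + 1)).sup' nonempty_range_add_one (fun m => vcol (path ω m))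

/-- minus the smallest column on the left of the path up to time `n` -/
noncomputable def lm (ω : Conf) (n : ℕ) : ℤ :=
  (range (n + 1)).sup' nonempty_range_add_one (fun m => -fcol (path ω m))

/-- the first time the width of the range is at least `L` -/
noncomputable def TT (L : ℕ) (ω : Conf) : ℕ := sInf {n | (L : ℤ) ≤ rm ω n + lm ω n}

/-- distance of the tip from the left end of the range when its width reaches `L` -/
noncomputable def pos (L : ℕ) (ω : Conf) : ℤ := lm ω (TT L ω)

theorem le_rm {ω : Conf} {m n : ℕ} (h : m ≤ n) : vcol (path ω m) ≤ rm ω n :=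
  le_sup' (fun m => vcol (path ω m)) (mem_range.2 (Nat.lt_succ_of_le h))

theorem le_lm {ω : Conf} {m n : ℕ} (h : m ≤ n) : -fcol (path ω m) ≤ lm ω n :=
  le_sup' (fun m => -fcol (path ω m)) (mem_range.2 (Nat.lt_succ_of_le h))

theorem rm_le {ω : Conf} {n : ℕ} {a : ℤ} : rm ω n ≤ a ↔ ∀ m ≤ n, vcol (path ω m) ≤ a := by
  unfold rm
  rw [sup'_le_iff]
  simp only [mem_range, Nat.lt_succ_iff]

theorem lm_le {ω : Conf} {n : ℕ} {a : ℤ} : lm ω n ≤ a ↔ ∀ m ≤ n, -fcol (path ω m) ≤ a := by
  unfold lm
  rw [sup'_le_iff]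
  simp only [mem_range, Nat.lt_succ_iff]

theorem rm_mono {ω : Conf} {m n : ℕ} (h : m ≤ n) : rm ω m ≤ rm ω n :=
  rm_le.2 fun _ hk => le_rm (hk.trans h)

theorem lm_mono {ω : Conf} {m n : ℕ} (h : m ≤ n) : lm ω m ≤ lm ω n :=
  lm_le.2 fun _ hk => le_lm (hk.trans h)

theorem pstep_cols (ω : Conf) (s : (ℤ × ℤ) × Fin 4) :
    (vcol (pstep ω s) = vcol s ∧ -fcol (pstep ω s) ≤ -fcol s + 1) ∨
      (fcol (pstep ω s) = fcol s ∧ vcol (pstep ω s) ≤ vcol s + 1) := by
  classical
  obtain ⟨⟨u, v⟩, d⟩ := s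
  unfold pstep
  split_ifs with h1 h2
  · obtain ⟨h3, h4⟩ := h1
    simp only at h4
    subst h4
    left
    unfold vcol fcol
    simp only [Prod.mk_add_mk]
    constructor <;> first | trivial | omega
  · right
    have hd : d = 0 ∨ d = 1 ∨ d = 2 ∨ d = 3 := by fin_cases d <;> simp
    rcases hd with rfl | rfl | rfl | rfl
    · unfold vcol fcol vec
      simp only [Prod.mk_add_mk, zero_add]
      constructor <;> first | trivial | omega
    · rw [show ((((u, v), (1 : Fin 4)).1 + vec ((u, v), (1 : Fin 4)).2, ((u, v), (1 : Fin 4)).2 + 1) :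
        (ℤ × ℤ) × Fin 4) = ((u + 0, v + 1), 2) from rfl]
      unfold vcol fcol
      simp only
      constructor <;> first | trivial | omega
    · rw [show ((((u, v), (2 : Fin 4)).1 + vec ((u, v), (2 : Fin 4)).2, ((u, v), (2 : Fin 4)).2 + 1) :
        (ℤ × ℤ) × Fin 4) = ((u + (-1), v + 0), 3) from rfl]
      unfold vcol fcol
      simp only
      constructor <;> first | trivial | omega
    · rw [show ((((u, v), (3 : Fin 4)).1 + vec ((u, v), (3 : Fin 4)).2, ((u, v), (3 : Fin 4)).2 + 1) :
        (ℤ × ℤ) × Fin 4) = ((u + 0, v + (-1)), 0) from rfl]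
      unfold vcol fcol
      simp only
      constructor <;> first | trivial | omega
  · left
    have hd : d = 0 ∨ d = 1 ∨ d = 2 ∨ d = 3 := by fin_cases d <;> simp
    rcases hd with rfl | rfl | rfl | rfl
    · rw [show ((((u, v), (0 : Fin 4)).1, ((u, v), (0 : Fin 4)).2 + 3) :
        (ℤ × ℤ) × Fin 4) = ((u, v), 3) from rfl]
      unfold vcol fcol
      simp only
      constructor <;> first | trivial | omega
    · rw [show ((((u, v), (1 : Fin 4)).1, ((u, v), (1 : Fin 4)).2 + 3) :
        (ℤ × ℤ) × Fin 4) = ((u, v), 0) from rfl]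
      unfold vcol fcol
      simp only
      constructor <;> first | trivial | omega
    · rw [show ((((u, v), (2 : Fin 4)).1, ((u, v), (2 : Fin 4)).2 + 3) :
        (ℤ × ℤ) × Fin 4) = ((u, v), 1) from rfl]
      unfold vcol fcol
      simp only
      constructor <;> first | trivial | omega
    · rw [show ((((u, v), (3 : Fin 4)).1, ((u, v), (3 : Fin 4)).2 + 3) :
        (ℤ × ℤ) × Fin 4) = ((u, v), 2) from rfl]
      unfold vcol fcol
      simp only
      constructor <;> first | trivial | omega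

theorem width_succ (ω : Conf) (n : ℕ) : rm ω (n + 1) + lm ω (n + 1) ≤ rm ω n + lm ω n + 1 := by
  have h := pstep_cols ω (path ω n)
  rw [← path_succ] at h
  have h1 : vcol (path ω n) ≤ rm ω n := le_rm le_rfl
  have h2 : -fcol (path ω n) ≤ lm ω n := le_lm le_rfl
  have hr : rm ω (n + 1) ≤ max (rm ω n) (vcol (path ω (n + 1))) := rm_le.2 fun m hm => by
    rcases Nat.lt_or_ge m (n + 1) with h3 | h3
    · exact le_max_of_le_left (le_rm (by omega))
    · have : m = n + 1 := by omega
      subst this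
      exact le_max_right _ _
  have hl : lm ω (n + 1) ≤ max (lm ω n) (-fcol (path ω (n + 1))) := lm_le.2 fun m hm => by
    rcases Nat.lt_or_ge m (n + 1) with h3 | h3
    · exact le_max_of_le_left (le_lm (by omega))
    · have : m = n + 1 := by omega
      subst this
      exact le_max_right _ _
  rcases h with ⟨h3, h4⟩ | ⟨h3, h4⟩
  · have h5 : rm ω (n + 1) ≤ rm ω n := hr.trans (max_le le_rfl (by omega))
    have h6 : lm ω (n + 1) ≤ lm ω n + 1 := hl.trans (max_le (by omega) (by omega))
    omega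
  · have h5 : rm ω (n + 1) ≤ rm ω n + 1 := hr.trans (max_le (by omega) (by omega))
    have h6 : lm ω (n + 1) ≤ lm ω n := hl.trans (max_le le_rfl (by omega))
    omega

theorem path_zero (ω : Conf) : path ω 0 = ((0, 0), 3) := rfl

theorem width_zero (ω : Conf) : rm ω 0 = 0 ∧ lm ω 0 = -1 := by
  constructor
  · refine le_antisymm (rm_le.2 fun m hm => ?_) ?_
    · have : m = 0 := by omega
      subst this
      rw [path_zero]
      unfold vcol
      simp
    · have h := le_rm (ω := ω) (le_refl 0)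
      rw [path_zero] at h
      unfold vcol at h
      simpa using h
  · refine le_antisymm (lm_le.2 fun m hm => ?_) ?_
    · have : m = 0 := by omega
      subst this
      rw [path_zero]
      unfold fcol
      simp
    · have h := le_lm (ω := ω) (le_refl 0)
      rw [path_zero] at h
      unfold fcol at h
      simpa using h

/-- the width takes the value `L` -/
def Wide (L : ℕ) (ω : Conf) : Prop := ∃ n, (L : ℤ) ≤ rm ω n + lm ω n

theorem TT_spec {L : ℕ} {ω : Conf} (h : Wide L ω) : rm ω (TT L ω) + lm ω (TT L ω) = L := by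
  have h1 : (L : ℤ) ≤ rm ω (TT L ω) + lm ω (TT L ω) := Nat.sInf_mem h
  refine le_antisymm ?_ h1
  rcases Nat.eq_zero_or_pos (TT L ω) with h2 | h2
  · rw [h2] at h1 ⊢
    obtain ⟨h3, h4⟩ := width_zero ω
    rw [h3, h4] at h1
    omega
  · obtain ⟨m, hm⟩ : ∃ m, TT L ω = m + 1 := ⟨TT L ω - 1, by omega⟩
    have h3 : ¬ (L : ℤ) ≤ rm ω m + lm ω m := by
      intro h4
      have h5 : TT L ω ≤ m := Nat.sInf_le h4
      omega
    have h4 := width_succ ω m
    rw [hm]
    omega

theorem TT_le {L n : ℕ} {ω : Conf} (h : (L : ℤ) ≤ rm ω n + lm ω n) : TT L ω ≤ n := Nat.sInf_le h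

theorem right_iff {a b : ℕ} {ω : Conf} (h : Wide (a + b) ω) :
    ω ∈ RightFirst a b ↔ pos (a + b) ω < a := by
  have hs := TT_spec h
  push_cast at hs
  unfold pos
  constructor
  · rintro ⟨n, h1, h2⟩
    have h3 : (b : ℤ) + 1 ≤ rm ω n := h1.trans (le_rm le_rfl)
    have h4 : lm ω n ≤ a - 1 := lm_le.2 fun m hm => by
      have := h2 m hm
      omega
    rcases le_total (TT (a + b) ω) n with h5 | h5
    · have := lm_mono (ω := ω) h5
      omega
    · have := rm_mono (ω := ω) h5
      omega
  · intro h1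
    have h2 : (b : ℤ) + 1 ≤ rm ω (TT (a + b) ω) := by omega
    obtain ⟨n, hn, h3⟩ : ∃ n ≤ TT (a + b) ω, (b : ℤ) + 1 ≤ vcol (path ω n) := by
      by_contra hc
      push Not at hc
      have : rm ω (TT (a + b) ω) ≤ b := rm_le.2 fun m hm => by
        have := hc m hm
        omega
      omega
    refine ⟨n, h3, fun m hm => ?_⟩
    have := le_lm (ω := ω) (hm.trans hn)
    omega

theorem pos_mono {L : ℕ} {ω : Conf} (h : Wide (L + 1) ω) :
    pos L ω ≤ pos (L + 1) ω ∧ pos (L + 1) ω ≤ pos L ω + 1 := by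
  have h0 : Wide L ω := by
    obtain ⟨n, hn⟩ := h
    refine ⟨n, ?_⟩
    push_cast at hn
    omega
  have h1 := TT_spec h
  have h2 := TT_spec h0
  have h3 : TT L ω ≤ TT (L + 1) ω := TT_le (by push_cast at h1; omega)
  have h4 := lm_mono (ω := ω) h3
  have h5 := rm_mono (ω := ω) h3
  unfold pos
  push_cast at h1
  constructor <;> first | trivial | omega

theorem ae_wide (hX : S_Exact) : ∀ᵐ ω ∂perc, ∀ L, Wide L ω := by
  rw [ae_all_iff]
  intro L
  filter_upwards [ae_exit hX (L + 1) (L + 1) (by omega)] with ω hω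
  obtain ⟨w1, w2⟩ := width_zero ω
  rcases hω with ⟨n, h1, -⟩ | ⟨n, h1, -⟩
  · refine ⟨n, ?_⟩
    have h2 : vcol (path ω n) ≤ rm ω n := le_rm le_rfl
    have h3 : lm ω 0 ≤ lm ω n := lm_mono (Nat.zero_le n)
    push_cast at h1
    omega
  · refine ⟨n, ?_⟩
    have h2 : -fcol (path ω n) ≤ lm ω n := le_lm le_rfl
    have h3 : rm ω 0 ≤ rm ω n := rm_mono (Nat.zero_le n)
    push_cast at h1
    omega

theorem meas_XC {a b : ℕ} (ha : Odd a) : MeasurableSet (XC a b) := by
  obtain ⟨k, rfl⟩ := ha
  have h1 : XC (2 * k + 1) b = (fun η : Conf => fun e : Edge => η (e.1 - (k + 1), e.2.1 + k, e.2.2)) ⁻¹'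
      (Cross (2 * k + 1) b) := by
    ext η
    rw [Set.mem_preimage, cross_iff]
    have e : tr k (fun e => η (e.1 - (k + 1), e.2.1 + k, e.2.2)) = η := by
      funext e
      unfold tr
      simp
    rw [e]
  rw [h1]
  refine MeasurableSet.preimage (E3_cross _ _) ?_
  rw [measurable_pi_iff]
  intro e
  exact measurable_pi_apply _

theorem XC_ae (hX : S_Exact) {a b : ℕ} (ha : Odd a) (hb : Odd b) :
    ∀ᵐ ω ∂perc, (ω ∈ XC a b ↔ ω ∈ RightFirst a b) := by
  have h1 := (exact_all hX a b ha hb).1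
  have h2 : perc.real (XC a b) = perc.real (Cross a b) := by
    obtain ⟨k, rfl⟩ := ha
    have h3 : perc.real {ω | tr k ω ∈ XC (2 * k + 1) b} = perc.real (XC (2 * k + 1) b) := by
      rw [measureReal_def, measureReal_def, perc_tr]
    rw [← h3]
    congr 1
    ext ω
    exact (cross_iff k b ω).symm
  have h3 : RightFirst a b ⊆ XC a b := by
    obtain ⟨k, rfl⟩ := ha
    exact right_XC k b hb
  have h4 : perc (XC a b \ RightFirst a b) = 0 := by
    have h5 : perc.real (XC a b \ RightFirst a b) = 0 := by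
      have h6 := measureReal_diff (μ := perc) h3 (m_events a b).1
      have h7 := hX a b ha hb
      rw [← h2, ← h1] at h7
      linarith
    exact (measureReal_eq_zero_iff (measure_ne_top _ _)).1 h5
  have h5 : ∀ᵐ ω ∂perc, ω ∉ XC a b \ RightFirst a b := measure_eq_zero_iff_ae_notMem.1 h4
  filter_upwards [h5] with ω hω
  constructor
  · intro h6
    by_contra h7
    exact hω ⟨h6, h7⟩
  · intro h6
    exact h3 h6

end Pool.Agent.Zk36.AC
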