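import Pool.Agent.Zk36.AC.Blk
import Pool.Agent.Zk36.AC.Pos
import Pool.Agent.Zk36.AC.Hol
import Pool.Agent.H984Q.Rate

/-!
# Almost sure Cardy formula: the arrays of crossing events
-/

set_option autoImplicit false

namespace Pool.Agent.Zk36.AC

open Pool.Agent.H988R2.Perc (Conf OpenAdj perc coin Edge)
open Pool.Agent.H984Q (RightFirst)
open Pool.Agent.H31C (S_Exact)
open Pool.Agent.H980R4.Rate (F F_one)
open Finset MeasureTheory ProbabilityTheory

/-- odd number close to `i L / G` -/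
def aa (G i L : ℕ) : ℕ := 2 * ((i * L) / (2 * G)) + 1

/-- the complement in `L` or `L + 1` -/
def bb (G i L : ℕ) : ℕ := L + L % 2 - aa G i L

theorem aa_odd (G i L : ℕ) : Odd (aa G i L) := ⟨_, rfl⟩

theorem aa_le1 {G : ℕ} (hG : 0 < G) (i L : ℕ) : G * aa G i L ≤ i * L + G := by
  have h := Nat.mul_div_le (i * L) (2 * G)
  unfold aa
  nlinarith

theorem aa_ge {G : ℕ} (hG : 0 < G) (i L : ℕ) : i * L < G * aa G i L + G := by
  have h := Nat.lt_mul_div_succ (i * L) (show 0 < 2 * G by omega)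
  unfold aa
  nlinarith

theorem aa_le2 {G i : ℕ} (hG : 0 < G) (hi : i ≤ G) (L : ℕ) : aa G i L ≤ L + 1 := by
  have h := aa_le1 hG i L
  have h2 : i * L ≤ G * L := Nat.mul_le_mul_right L hi
  have h3 : G * aa G i L ≤ G * (L + 1) := by nlinarith
  exact Nat.le_of_mul_le_mul_left h3 hG

theorem sum_le {G i : ℕ} (hG : 0 < G) (hi : i ≤ G) (L : ℕ) : aa G i L + bb G i L ≤ L + 1 := by
  have h := aa_le2 hG hi L
  unfold bb
  omega

theorem aa_lt {G i L : ℕ} (hG : 0 < G) (hi : i < G) (hL : 4 * G ≤ L) : aa G i L ≤ L := by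
  have h := aa_le1 hG i L
  have h2 : (i + 1) * L ≤ G * L := Nat.mul_le_mul_right L hi
  have h3 : G * aa G i L ≤ G * L := by nlinarith
  exact Nat.le_of_mul_le_mul_left h3 hG

theorem sum_eq {G i L : ℕ} (hG : 0 < G) (hi : i < G) (hL : 4 * G ≤ L) :
    aa G i L + bb G i L = L + L % 2 := by
  have h := aa_lt hG hi hL
  unfold bb
  omega

theorem bb_odd {G i L : ℕ} (hG : 0 < G) (hi : i < G) (hL : 4 * G ≤ L) : Odd (bb G i L) := by
  have h := sum_eq hG hi hL
  obtain ⟨k, hk⟩ := aa_odd G i L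
  rw [Nat.odd_iff]
  omega

theorem bb_ge {G i L : ℕ} (hG : 0 < G) (hi : i < G) (hL : 4 * G ≤ L) : L ≤ G * (bb G i L + 1) := by
  have h := aa_le1 hG i L
  have h1 := sum_eq hG hi hL
  have h2 : (i + 1) * L ≤ G * L := Nat.mul_le_mul_right L hi
  have h3 : L ≤ aa G i L + bb G i L := by omega
  have h4 : G * L ≤ G * (aa G i L + bb G i L) := Nat.mul_le_mul_left G h3
  nlinarith

/-- the good configurations -/
def Good (ω : Conf) : Prop :=
  (∀ L, Wide L ω) ∧ ∀ a b, Odd a → Odd b → (ω ∈ XC a b ↔ ω ∈ RightFirst a b)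

theorem ae_good (hX : S_Exact) : ∀ᵐ ω ∂perc, Good ω := by
  have h1 : ∀ᵐ ω ∂perc, ∀ a b, Odd a → Odd b → (ω ∈ XC a b ↔ ω ∈ RightFirst a b) := by
    rw [ae_all_iff]
    intro a
    rw [ae_all_iff]
    intro b
    by_cases ha : Odd a
    · by_cases hb : Odd b
      · filter_upwards [XC_ae hX ha hb] with ω hω
        exact fun _ _ => hω
      · exact ae_of_all _ fun ω _ h => absurd h hb
    · exact ae_of_all _ fun ω h => absurd h ha
  filter_upwards [ae_wide hX, h1] with ω h2 h3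
  exact ⟨h2, h3⟩

open Classical in
/-- indicator of `pos L ≤ x L` -/
noncomputable def iP (x : ℝ) (L : ℕ) (ω : Conf) : ℝ := if (pos L ω : ℝ) ≤ x * L then 1 else 0

theorem iP_mem (x : ℝ) (L : ℕ) (ω : Conf) : iP x L ω ∈ Set.Icc (0:ℝ) 1 := by
  unfold iP
  split_ifs <;> simp

theorem good_iff {G i L : ℕ} (hG : 0 < G) (hi : i < G) (hL : 4 * G ≤ L) {ω : Conf} (hω : Good ω) :
    ω ∈ XC (aa G i L) (bb G i L) ↔ pos (L + L % 2) ω < aa G i L := by
  rw [hω.2 _ _ (aa_odd _ _ _) (bb_odd hG hi hL), right_iff (hω.1 _), sum_eq hG hi hL]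

theorem pos_par {ω : Conf} (hω : Good ω) (L : ℕ) :
    pos L ω ≤ pos (L + L % 2) ω ∧ pos (L + L % 2) ω ≤ pos L ω + 1 := by
  rcases Nat.mod_two_eq_zero_or_one L with h | h
  · rw [h, add_zero]
    constructor <;> linarith
  · rw [h]
    exact pos_mono (hω.1 _)

theorem lower {G i L : ℕ} (hG : 0 < G) (hi : i < G) (hL : 4 * G ≤ L) {ω : Conf} (hω : Good ω)
    {x : ℝ} (hx : (i : ℝ) ≤ x * G) : iXC (aa G i L) (bb G i L) ω ≤ iP x L ω := by
  unfold iXC
  by_cases h : ω ∈ XC (aa G i L) (bb G i L)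
  · rw [if_pos h]
    have h1 := (good_iff hG hi hL hω).1 h
    have h2 := (pos_par hω L).1
    have h3 : pos L ω ≤ aa G i L - 1 := by omega
    have h4 : (pos L ω : ℝ) ≤ aa G i L - 1 := by exact_mod_cast h3
    have h5 := aa_le1 hG i L
    have h6 : (G : ℝ) * aa G i L ≤ i * L + G := by exact_mod_cast h5
    have h7 : (0:ℝ) < G := by exact_mod_cast hG
    have h8 : (pos L ω : ℝ) ≤ x * L := by
      have h9 : (G : ℝ) * pos L ω ≤ G * (x * L) := by
        have h10 : (i : ℝ) * L ≤ x * G * L := mul_le_mul_of_nonneg_right hx (Nat.cast_nonneg L)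
        nlinarith
      exact le_of_mul_le_mul_left h9 h7
    unfold iP
    rw [if_pos h8]
  · rw [if_neg h]
    exact (iP_mem x L ω).1

theorem upper {G i L : ℕ} (hG : 0 < G) (hi : i < G) (hL : 4 * G ≤ L) {ω : Conf} (hω : Good ω)
    {x : ℝ} (hx : x * G + 3 ≤ (i : ℝ)) : iP x L ω ≤ iXC (aa G i L) (bb G i L) ω := by
  unfold iP
  by_cases h : (pos L ω : ℝ) ≤ x * L
  · rw [if_pos h]
    have h2 := (pos_par hω L).2
    have h3 : (pos (L + L % 2) ω : ℝ) ≤ pos L ω + 1 := by exact_mod_cast h2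
    have h5 := aa_ge hG i L
    have h6 : (i : ℝ) * L < G * aa G i L + G := by exact_mod_cast h5
    have h7 : (0:ℝ) < G := by exact_mod_cast hG
    have h8 : (4:ℝ) * G ≤ L := by exact_mod_cast hL
    have h9 : (pos (L + L % 2) ω : ℝ) < aa G i L := by
      have h10 : (x * G + 3) * L ≤ (i : ℝ) * L := mul_le_mul_of_nonneg_right hx (Nat.cast_nonneg L)
      have h11 : (G : ℝ) * pos (L + L % 2) ω < G * aa G i L := by
        have h12 : (G : ℝ) * pos (L + L % 2) ω ≤ G * (x * L + 1) :=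
          mul_le_mul_of_nonneg_left (by linarith) h7.le
        nlinarith
      exact lt_of_mul_lt_mul_left h11 h7.le
    have h10 : ω ∈ XC (aa G i L) (bb G i L) :=
      (good_iff hG hi hL hω).2 (by exact_mod_cast h9)
    unfold iXC
    rw [if_pos h10]
  · rw [if_neg h]
    exact (iXC_mem _ _ _).1

theorem int_iXC {a b : ℕ} (ha : Odd a) : ∫ ω, iXC a b ω ∂perc = perc.real (XC a b) := by
  classical
  have h : (fun ω => iXC a b ω) = (XC a b).indicator (fun _ => (1:ℝ)) := by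
    funext ω
    unfold iXC
    by_cases h : ω ∈ XC a b
    · rw [if_pos h, Set.indicator_of_mem h]
    · rw [if_neg h, Set.indicator_of_notMem h]
  rw [h, integral_indicator_const _ (meas_XC ha), smul_eq_mul, mul_one]

theorem int_near (hX : S_Exact) {G i L : ℕ} (hG : 0 < G) (hi : i < G) (hL : 4 * G ≤ L) :
    |(∫ ω, iXC (aa G i L) (bb G i L) ω ∂perc) - F ((i : ℝ) / G)| ≤ 72 * (L : ℝ) ^ (-(1/3) : ℝ) := by
  rw [int_iXC (aa_odd _ _ _)]
  have hbo := bb_odd hG hi hL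
  have h1 : perc.real (XC (aa G i L) (bb G i L)) = perc.real (RightFirst (aa G i L) (bb G i L)) :=
    measureReal_congr (Filter.eventuallyEq_set.2 (XC_ae hX (aa_odd _ _ _) hbo))
  have ha1 : 1 ≤ aa G i L := (aa_odd G i L).pos
  have hb1 : 1 ≤ bb G i L := hbo.pos
  have h2 := Pool.Agent.H984Q.right_rate hX ha1 hb1
  rw [Pool.Agent.H980R4.Rate.cardyF_eq, ← h1] at h2
  have hs := sum_eq hG hi hL
  have hLs : L ≤ aa G i L + bb G i L := by omega
  have hL0 : (0:ℝ) < L := by exact_mod_cast (by omega : 0 < L)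
  have hLr : (L:ℝ) ≤ (aa G i L : ℝ) + bb G i L := by exact_mod_cast hLs
  have hG0 : (0:ℝ) < G := by exact_mod_cast hG
  have h3 : 60 * ((min (aa G i L) (bb G i L) : ℕ) : ℝ) ^ (-(2/3) : ℝ) *
      ((aa G i L : ℝ) + bb G i L) ^ (-(1/3) : ℝ) ≤ 60 * (L : ℝ) ^ (-(1/3) : ℝ) := by
    have h4 : ((min (aa G i L) (bb G i L) : ℕ) : ℝ) ^ (-(2/3) : ℝ) ≤ 1 := by
      refine Real.rpow_le_one_of_one_le_of_nonpos ?_ (by norm_num)
      exact_mod_cast le_min ha1 hb1
    have h5 : ((aa G i L : ℝ) + bb G i L) ^ (-(1/3) : ℝ) ≤ (L : ℝ) ^ (-(1/3) : ℝ) :=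
      Real.rpow_le_rpow_of_nonpos hL0 hLr (by norm_num)
    have h6 : 0 ≤ ((aa G i L : ℝ) + bb G i L) ^ (-(1/3) : ℝ) := by positivity
    have h7 : 0 ≤ ((min (aa G i L) (bb G i L) : ℕ) : ℝ) ^ (-(2/3) : ℝ) := by positivity
    nlinarith
  have hsum : (aa G i L : ℝ) + bb G i L ≤ L + 1 := by exact_mod_cast sum_le hG hi.le L
  set s : ℝ := (aa G i L : ℝ) + bb G i L with hsdef
  have hs0 : 0 < s := lt_of_lt_of_le hL0 hLr
  have a1 : (G : ℝ) * aa G i L ≤ i * L + G := by exact_mod_cast aa_le1 hG i L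
  have a2 : (i : ℝ) * L < G * aa G i L + G := by exact_mod_cast aa_ge hG i L
  have hiG : (i:ℝ) ≤ G := by exact_mod_cast hi.le
  have hi0 : (0:ℝ) ≤ i := Nat.cast_nonneg i
  have h4 : |(aa G i L : ℝ) / s - i / G| ≤ 2 / L := by
    rw [div_sub_div _ _ hs0.ne' hG0.ne', abs_div, abs_of_pos (mul_pos hs0 hG0),
      div_le_div_iff₀ (mul_pos hs0 hG0) hL0]
    have h5 : |(aa G i L : ℝ) * G - s * i| ≤ 2 * G := by
      rw [abs_le]
      constructor
      · nlinarith
      · nlinarith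
    calc |(aa G i L : ℝ) * G - s * i| * L ≤ (2 * G) * s :=
          mul_le_mul h5 hLr hL0.le (by positivity)
      _ = 2 * (s * G) := by ring
  have m1 : (aa G i L : ℝ) / s ∈ Set.Icc (0:ℝ) 1 := by
    constructor
    · positivity
    · rw [div_le_one hs0, hsdef]
      have : (0:ℝ) ≤ bb G i L := Nat.cast_nonneg _
      linarith
  have m2 : (i:ℝ) / G ∈ Set.Icc (0:ℝ) 1 := by
    constructor
    · positivity
    · rw [div_le_one hG0]
      exact hiG
  have h5 := F_abs m2 m1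
  have h6 : |(aa G i L : ℝ) / s - i / G| ^ (1/3 : ℝ) ≤ 2 * (L : ℝ) ^ (-(1/3) : ℝ) := by
    refine (Real.rpow_le_rpow (abs_nonneg _) h4 (by norm_num)).trans ?_
    rw [Real.div_rpow (by norm_num) hL0.le, Real.rpow_neg hL0.le, div_eq_mul_inv]
    refine mul_le_mul_of_nonneg_right ?_ (by positivity)
    calc (2:ℝ) ^ (1/3 : ℝ) ≤ 2 ^ (1 : ℝ) :=
          Real.rpow_le_rpow_of_exponent_le (by norm_num) (by norm_num)
      _ = 2 := Real.rpow_one 2
  calc |perc.real (XC (aa G i L) (bb G i L)) - F ((i:ℝ) / G)|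
      ≤ |perc.real (XC (aa G i L) (bb G i L)) - F ((aa G i L : ℝ) / s)| +
        |F ((aa G i L : ℝ) / s) - F ((i:ℝ) / G)| := abs_sub_le _ _ _
    _ ≤ 60 * (L : ℝ) ^ (-(1/3) : ℝ) + 6 * (2 * (L : ℝ) ^ (-(1/3) : ℝ)) := by
        refine add_le_add (h2.trans h3) (h5.trans ?_)
        exact mul_le_mul_of_nonneg_left h6 (by norm_num)
    _ = 72 * (L : ℝ) ^ (-(1/3) : ℝ) := by ring

end Pool.Agent.Zk36.AC
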