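import Mathlib
import Pool.Agent.H988R2.Perc.Defs

/-!
# Almost sure Cardy formula: exponential concentration for sums of functions of disjoint scales
-/

set_option autoImplicit false

namespace Pool.Agent.Zk36.AC

open Pool.Agent.H988R2.Perc (Conf perc coin Edge)
open Finset MeasureTheory ProbabilityTheory
open scoped NNReal

/-- `f` depends only on the edges of `S` -/
def Dep {β : Type*} (S : Finset Edge) (f : Conf → β) : Prop :=
  ∀ ω ω' : Conf, (∀ e ∈ S, ω e = ω' e) → f ω = f ω'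

open Classical in
/-- extension of a configuration on `S` -/
noncomputable def ext (S : Finset Edge) (x : (e : S) → Bool) : Conf :=
  fun e => if h : e ∈ S then x ⟨e, h⟩ else false

theorem Dep.eq {β : Type*} {S : Finset Edge} {f : Conf → β} (h : Dep S f) (ω : Conf) :
    f ω = f (ext S (fun e : S => ω e)) := by
  refine h _ _ fun e he => ?_
  unfold ext
  rw [dif_pos he]

theorem Dep.measurable {β : Type*} [MeasurableSpace β] {S : Finset Edge} {f : Conf → β}
    (h : Dep S f) : Measurable f := by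
  have h1 : f = (fun x : (e : S) → Bool => f (ext S x)) ∘ (fun ω (e : S) => ω e) := by
    funext ω
    exact h.eq ω
  rw [h1]
  refine (measurable_of_finite _).comp ?_
  rw [measurable_pi_iff]
  intro e
  exact measurable_pi_apply _

theorem iIndep_coord : iIndepFun (fun (e : Edge) (ω : Conf) => ω e) perc := by
  unfold perc
  have : ∀ e : Edge, IsProbabilityMeasure ((fun _ : Edge => coin) e) := fun e => by
    unfold coin; infer_instance
  exact iIndepFun_infinitePi (P := fun _ : Edge => coin) (X := fun _ b => b)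
    (fun _ => measurable_id)

theorem indep_of_dep {β γ : Type*} [MeasurableSpace β] [MeasurableSpace γ] {S T : Finset Edge}
    (hST : Disjoint S T) {f : Conf → β} {g : Conf → γ} (hf : Dep S f) (hg : Dep T g) :
    IndepFun f g perc := by
  have h1 : f = (fun x : (e : S) → Bool => f (ext S x)) ∘ (fun ω (e : S) => ω e) := by
    funext ω
    exact hf.eq ω
  have h2 : g = (fun x : (e : T) → Bool => g (ext T x)) ∘ (fun ω (e : T) => ω e) := by
    funext ω
    exact hg.eq ω
  rw [h1, h2]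
  refine IndepFun.comp ?_ (measurable_of_finite _) (measurable_of_finite _)
  exact iIndep_coord.indepFun_finset S T hST (fun e => measurable_pi_apply e)

instance : IsProbabilityMeasure perc := by
  unfold perc
  have : ∀ e : Edge, IsProbabilityMeasure ((fun _ : Edge => coin) e) := fun e => by
    unfold coin; infer_instance
  infer_instance

theorem subg_mono {Ω : Type*} {_ : MeasurableSpace Ω} {μ : Measure Ω} {X : Ω → ℝ} {c c' : ℝ≥0}
    (h : HasSubgaussianMGF X c μ) (hc : c ≤ c') : HasSubgaussianMGF X c' μ where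
  integrable_exp_mul := h.integrable_exp_mul
  mgf_le t := (h.mgf_le t).trans (Real.exp_le_exp.2 (by
    have : (c : ℝ) ≤ c' := by exact_mod_cast hc
    gcongr))

theorem subg_sum (S : ℕ → Finset Edge) (Y : ℕ → Conf → ℝ) (hY : ∀ k ω, Y k ω ∈ Set.Icc (0:ℝ) 1)
    (hdep : ∀ k, Dep (S k) (Y k)) (s : Finset ℕ)
    (hd : ∀ j ∈ s, ∀ k ∈ s, j ≠ k → Disjoint (S j) (S k)) :
    HasSubgaussianMGF (fun ω => ∑ k ∈ s, (Y k ω - ∫ ω', Y k ω' ∂perc)) ((s.card : ℝ≥0) * (1 / 4))
      perc := by
  classical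
  induction s using Finset.induction_on with
  | empty =>
    simp only [Finset.sum_empty, Finset.card_empty, Nat.cast_zero, zero_mul]
    exact HasSubgaussianMGF.fun_zero
  | insert a s ha ih =>
    have h1 := ih (fun j hj k hk => hd j (Finset.mem_insert_of_mem hj) k (Finset.mem_insert_of_mem hk))
    have h2 : HasSubgaussianMGF (fun ω => Y a ω - ∫ ω', Y a ω' ∂perc) (1 / 4) perc := by
      have h3 := hasSubgaussianMGF_of_mem_Icc (μ := perc) (X := Y a) (a := 0) (b := 1)
        (hdep a).measurable.aemeasurable (ae_of_all _ (hY a))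
      refine subg_mono h3 (le_of_eq ?_)
      rw [sub_zero, nnnorm_one]
      norm_num
    have hT : Disjoint (S a) (s.biUnion S) := by
      rw [Finset.disjoint_biUnion_right]
      intro k hk
      refine hd a (Finset.mem_insert_self _ _) k (Finset.mem_insert_of_mem hk) ?_
      rintro rfl
      exact ha hk
    have h4 : IndepFun (fun ω => Y a ω - ∫ ω', Y a ω' ∂perc)
        (fun ω => ∑ k ∈ s, (Y k ω - ∫ ω', Y k ω' ∂perc)) perc := by
      refine indep_of_dep hT (fun ω ω' h => ?_) (fun ω ω' h => ?_)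
      · rw [hdep a ω ω' h]
      · refine Finset.sum_congr rfl fun k hk => ?_
        rw [hdep k ω ω' (fun e he => h e (Finset.mem_biUnion.2 ⟨k, hk, he⟩))]
    have h5 := h2.add_of_indepFun h1 h4
    have e1 : (fun ω => ∑ k ∈ insert a s, (Y k ω - ∫ ω', Y k ω' ∂perc)) =
        fun ω => (Y a ω - ∫ ω', Y a ω' ∂perc) + ∑ k ∈ s, (Y k ω - ∫ ω', Y k ω' ∂perc) := by
      funext ω
      rw [Finset.sum_insert ha]
    rw [e1]
    refine subg_mono h5 (le_of_eq ?_)
    rw [Finset.card_insert_of_notMem ha]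
    push_cast
    ring

/-- two-sided tail for disjoint scales -/
theorem tail_disj (S : ℕ → Finset Edge) (Y : ℕ → Conf → ℝ) (hY : ∀ k ω, Y k ω ∈ Set.Icc (0:ℝ) 1)
    (hdep : ∀ k, Dep (S k) (Y k)) (s : Finset ℕ)
    (hd : ∀ j ∈ s, ∀ k ∈ s, j ≠ k → Disjoint (S j) (S k)) (N : ℕ) (hN : s.card ≤ N)
    (l : ℝ) (hl : 0 ≤ l) :
    perc.real {ω | l ≤ |∑ k ∈ s, (Y k ω - ∫ ω', Y k ω' ∂perc)|} ≤
      2 * Real.exp (-2 * l ^ 2 / N) := by
  have h1 := subg_mono (subg_sum S Y hY hdep s hd) (c' := (N : ℝ≥0) * (1 / 4)) (by gcongr)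
  have h2 := h1.measure_ge_le hl
  have h3 := h1.neg.measure_ge_le hl
  have e1 : -l ^ 2 / (2 * (((N : ℝ≥0) * (1 / 4) : ℝ≥0) : ℝ)) = -2 * l ^ 2 / N := by
    push_cast
    rcases Nat.eq_zero_or_pos N with h | h
    · subst h; simp
    · have : (N : ℝ) ≠ 0 := by positivity
      field_simp
      ring
  rw [e1] at h2 h3
  have h4 : {ω | l ≤ |∑ k ∈ s, (Y k ω - ∫ ω', Y k ω' ∂perc)|} ⊆
      {ω | l ≤ ∑ k ∈ s, (Y k ω - ∫ ω', Y k ω' ∂perc)} ∪
      {ω | l ≤ (-fun ω => ∑ k ∈ s, (Y k ω - ∫ ω', Y k ω' ∂perc)) ω} := by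
    intro ω hω
    simp only [Set.mem_setOf_eq] at hω
    rcases le_abs.1 hω with h | h
    · exact Or.inl h
    · exact Or.inr h
  refine (measureReal_mono h4).trans ((measureReal_union_le _ _).trans ?_)
  linarith

/-- **Concentration** for functions of scales which are independent at distance `m` -/
theorem conc (S : ℕ → Finset Edge) (Y : ℕ → Conf → ℝ) (hY : ∀ k ω, Y k ω ∈ Set.Icc (0:ℝ) 1)
    (hdep : ∀ k, Dep (S k) (Y k)) (m : ℕ) (hm : 1 ≤ m)
    (s : Finset ℕ) (hd : ∀ j ∈ s, ∀ k ∈ s, j + m ≤ k → Disjoint (S j) (S k)) (N : ℕ)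
    (hN : ∀ r < m, (s.filter (fun k => k % m = r)).card ≤ N) (l : ℝ) (hl : 0 ≤ l) :
    perc.real {ω | (m : ℝ) * l ≤ |∑ k ∈ s, (Y k ω - ∫ ω', Y k ω' ∂perc)|} ≤
      (m : ℝ) * (2 * Real.exp (-2 * l ^ 2 / N)) := by
  classical
  have h1 : ∀ r < m, perc.real {ω | l ≤ |∑ k ∈ s.filter (fun k => k % m = r),
      (Y k ω - ∫ ω', Y k ω' ∂perc)|} ≤ 2 * Real.exp (-2 * l ^ 2 / N) := by
    intro r hr
    refine tail_disj S Y hY hdep _ ?_ N (hN r hr) l hl
    intro j hj k hk hjk
    rw [Finset.mem_filter] at hj hk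
    have key : ∀ j k : ℕ, j % m = k % m → j < k → j + m ≤ k := by
      intro j k h1 h2
      have h3 : m ∣ k - j := (Nat.modEq_iff_dvd' h2.le).1 h1
      have h4 := Nat.le_of_dvd (by omega) h3
      omega
    rcases lt_or_gt_of_ne hjk with h | h
    · exact hd j hj.1 k hk.1 (key j k (by rw [hj.2, hk.2]) h)
    · exact (hd k hk.1 j hj.1 (key k j (by rw [hj.2, hk.2]) h)).symm
  have h2 : {ω | (m : ℝ) * l ≤ |∑ k ∈ s, (Y k ω - ∫ ω', Y k ω' ∂perc)|} ⊆
      ⋃ r ∈ Finset.range m, {ω | l ≤ |∑ k ∈ s.filter (fun k => k % m = r),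
        (Y k ω - ∫ ω', Y k ω' ∂perc)|} := by
    intro ω hω
    simp only [Set.mem_setOf_eq] at hω
    by_contra hc
    simp only [Set.mem_iUnion, Finset.mem_range, Set.mem_setOf_eq, not_exists, not_le] at hc
    have e1 : ∑ k ∈ s, (Y k ω - ∫ ω', Y k ω' ∂perc) = ∑ r ∈ Finset.range m,
        ∑ k ∈ s.filter (fun k => k % m = r), (Y k ω - ∫ ω', Y k ω' ∂perc) := by
      rw [Finset.sum_fiberwise_of_maps_to]
      intro k _
      exact Finset.mem_range.2 (Nat.mod_lt _ (by omega))
    rw [e1] at hω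
    have h3 : |∑ r ∈ Finset.range m, ∑ k ∈ s.filter (fun k => k % m = r),
        (Y k ω - ∫ ω', Y k ω' ∂perc)| < ∑ _r ∈ Finset.range m, l := by
      refine (Finset.abs_sum_le_sum_abs _ _).trans_lt ?_
      refine Finset.sum_lt_sum_of_nonempty (Finset.nonempty_range_iff.2 (by omega)) ?_
      intro r hr
      exact hc r (Finset.mem_range.1 hr)
    rw [Finset.sum_const, Finset.card_range, nsmul_eq_mul] at h3
    linarith
  refine (measureReal_mono h2 (measure_ne_top _ _)).trans ((measureReal_biUnion_finset_le _ _).trans ?_)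
  refine (Finset.sum_le_sum fun r hr => h1 r (Finset.mem_range.1 hr)).trans ?_
  rw [Finset.sum_const, Finset.card_range, nsmul_eq_mul]

end Pool.Agent.Zk36.AC
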