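import Pool.Agent.Zk36.AC.Loc
import Pool.Agent.Zk36.AC.Conc

/-!
# Almost sure Cardy formula: blocks of scales
-/

set_option autoImplicit false

namespace Pool.Agent.Zk36.AC

open Pool.Agent.H988R2.Perc (Conf OpenAdj perc coin Edge)
open Finset MeasureTheory ProbabilityTheory

/-- the scales `2^j ≤ L < 2^(j+1)` -/
def blk (j : ℕ) : Finset ℕ := Finset.Ico (2 ^ j) (2 ^ (j + 1))

theorem mem_blk {j L : ℕ} : L ∈ blk j ↔ 2 ^ j ≤ L ∧ L < 2 ^ (j + 1) := by
  unfold blk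
  rw [Finset.mem_Ico]

open Classical in
/-- indicator of the crossing -/
noncomputable def iXC (a b : ℕ) (η : Conf) : ℝ := if η ∈ XC a b then 1 else 0

theorem iXC_mem (a b : ℕ) (η : Conf) : iXC a b η ∈ Set.Icc (0:ℝ) 1 := by
  unfold iXC
  split_ifs <;> simp

/-- the sum over a block of scales -/
noncomputable def fB (a b : ℕ → ℕ) (j : ℕ) (η : Conf) : ℝ :=
  ∑ L ∈ blk j, (L : ℝ)⁻¹ * iXC (a L) (b L) η

theorem sum_inv_blk (j : ℕ) : ∑ L ∈ blk j, (L : ℝ)⁻¹ ≤ 1 := by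
  have h : ∀ L ∈ blk j, (L : ℝ)⁻¹ ≤ ((2:ℝ) ^ j)⁻¹ := by
    intro L hL
    have h1 := (mem_blk.1 hL).1
    have h2 : ((2:ℝ) ^ j) ≤ L := by exact_mod_cast h1
    exact inv_anti₀ (by positivity) h2
  refine (Finset.sum_le_card_nsmul _ _ _ h).trans ?_
  unfold blk
  rw [Nat.card_Ico, nsmul_eq_mul, pow_succ]
  have h3 : (2:ℕ) ^ j * 2 - 2 ^ j = 2 ^ j := by omega
  rw [h3]
  push_cast
  rw [mul_inv_cancel₀ (by positivity)]

theorem fB_mem (a b : ℕ → ℕ) (j : ℕ) (η : Conf) : fB a b j η ∈ Set.Icc (0:ℝ) 1 := by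
  constructor
  · exact Finset.sum_nonneg fun L _ => mul_nonneg (by positivity) (iXC_mem _ _ _).1
  · refine le_trans (Finset.sum_le_sum fun L _ => ?_) (sum_inv_blk j)
    exact mul_le_of_le_one_right (by positivity) (iXC_mem _ _ _).2

open Classical in
/-- the edges near the scale `2^j` -/
noncomputable def SF (t j : ℕ) : Finset Edge :=
  ((Finset.Icc (-(2 ^ (j + t) : ℤ)) (2 ^ (j + t))) ×ˢ
    ((Finset.Icc (-(2 ^ (j + t) : ℤ)) (2 ^ (j + t))) ×ˢ Finset.univ)).filter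
    (fun e => e ∈ SR (2 ^ (j - t)) (2 ^ (j + t)))

open Classical in
theorem mem_SF {t j : ℕ} {e : Edge} : e ∈ SF t j ↔ e ∈ SR (2 ^ (j - t)) (2 ^ (j + t)) := by
  unfold SF
  rw [Finset.mem_filter]
  refine ⟨fun h => h.2, fun h => ⟨?_, h⟩⟩
  obtain ⟨u, v, c⟩ := e
  have h1 := h.2
  rw [nm_le, abs_le, abs_le] at h1
  simp only at h1
  rw [Finset.mem_product, Finset.mem_product, Finset.mem_Icc, Finset.mem_Icc]
  exact ⟨h1.1, h1.2, Finset.mem_univ _⟩

/-- the localised sum -/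
noncomputable def gB (a b : ℕ → ℕ) (t j : ℕ) (η : Conf) : ℝ :=
  fB a b j (rs (SR (2 ^ (j - t)) (2 ^ (j + t))) η)

theorem gB_dep (a b : ℕ → ℕ) (t j : ℕ) : Dep (SF t j) (gB a b t j) := by
  intro ω ω' h
  unfold gB
  congr 1
  funext e
  unfold rs
  by_cases h1 : e ∈ SR (2 ^ (j - t)) (2 ^ (j + t))
  · rw [if_pos h1, if_pos h1]
    exact h e (mem_SF.2 h1)
  · rw [if_neg h1, if_neg h1]

theorem SF_disj {t j k : ℕ} (h : j + 2 * t ≤ k) : Disjoint (SF t j) (SF t k) := by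
  rw [Finset.disjoint_left]
  intro e h1 h2
  have h3 := (mem_SF.1 h1).2
  have h4 := (mem_SF.1 h2).1
  have h5 : (2:ℤ) ^ (j + t) ≤ 2 ^ (k - t) := pow_le_pow_right₀ (by norm_num) (by omega)
  exact absurd (h3.trans h5) (not_le.2 h4)

/-- the arm events of the scale `2^j` -/
def AE (t g j : ℕ) : Set Conf := Arm (2 ^ (j - t)) (2 ^ (j - g)) ∪ Arm (2 ^ (j + 3)) (2 ^ (j + t))

theorem fB_eq {a b : ℕ → ℕ} {t g j : ℕ} (h1 : ∀ L ∈ blk j, 2 * 2 ^ (j - g) ≤ b L + 1)
    (h2 : ∀ L, a L + b L ≤ L + 1) {η : Conf} (hη : η ∉ AE t g j) :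
    fB a b j η = gB a b t j η := by
  unfold gB fB
  refine Finset.sum_congr rfl fun L hL => ?_
  congr 1
  have h3 := (mem_blk.1 hL).2
  have h4 := h1 L hL
  have h5 := h2 L
  have h6 : (a L : ℤ) + b L + 2 ≤ 2 ^ (j + 3) := by
    have e1 : (2:ℕ) ^ (j + 3) = 4 * 2 ^ (j + 1) := by rw [pow_add, pow_add]; ring
    have e2 : 2 ≤ (2:ℕ) ^ (j + 1) := by
      calc 2 = 2 ^ 1 := by norm_num
        _ ≤ 2 ^ (j + 1) := Nat.pow_le_pow_right (by norm_num) (by omega)
    have e3 : a L + b L + 2 ≤ 2 ^ (j + 3) := by omega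
    exact_mod_cast e3
  have h7 : 2 * (2:ℤ) ^ (j - g) ≤ (b L : ℤ) + 1 := by exact_mod_cast h4
  have hloc := localise (a L) (b L) (2 ^ (j - t)) (2 ^ (j + t)) (2 ^ (j - g)) η h7
    (fun hc => hη (Or.inl hc))
    (fun hc => hη (Or.inr (by
      obtain ⟨x, y, hx, hy, hxy⟩ := hc
      exact ⟨x, y, hx.trans h6, hy, hxy⟩)))
  unfold iXC
  by_cases hx : η ∈ XC (a L) (b L)
  · rw [if_pos hx, if_pos (hloc.1 hx)]
  · rw [if_neg hx, if_neg (fun hc => hx (hloc.2 hc))]

/-- the bound for one arm -/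
def ArmB (C c : ℝ) : Prop := 0 < C ∧ 0 < c ∧ ∀ r R : ℕ, 1 ≤ r → r ≤ R →
    perc.real (Arm r R) ≤ C * ((r : ℝ) / R) ^ c

theorem arm_pow {C c : ℝ} (h : ArmB C c) (i k : ℕ) (hik : i ≤ k) :
    perc.real (Arm (2 ^ i) (2 ^ k)) ≤ C * ((2:ℝ) ^ (-c * ((k - i : ℕ) : ℝ))) := by
  have h1 := h.2.2 (2 ^ i) (2 ^ k) Nat.one_le_two_pow (Nat.pow_le_pow_right (by norm_num) hik)
  push_cast at h1
  refine h1.trans (le_of_eq ?_)
  congr 1
  have e1 : (2:ℝ) ^ i / 2 ^ k = (2:ℝ) ^ (-((k - i : ℕ) : ℝ)) := by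
    rw [Real.rpow_neg (by norm_num), Real.rpow_natCast, eq_comm, inv_eq_one_div,
      div_eq_div_iff (by positivity) (by positivity), one_mul, ← pow_add]
    congr 1
    omega
  rw [e1, ← Real.rpow_mul (by norm_num)]
  congr 1
  ring

/-- the error -/
noncomputable def del (C c : ℝ) (t g : ℕ) : ℝ := 2 * C * (2:ℝ) ^ (-c * ((t - g : ℕ) : ℝ))

theorem AE_bound {C c : ℝ} (h : ArmB C c) {t g j : ℕ} (hg : 3 ≤ g) (hgt : g ≤ t) (hj : t ≤ j) :
    perc.real (AE t g j) ≤ del C c t g := by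
  have h1 := arm_pow h (j - t) (j - g) (by omega)
  have h2 := arm_pow h (j + 3) (j + t) (by omega)
  rw [show j - g - (j - t) = t - g by omega] at h1
  rw [show j + t - (j + 3) = t - 3 by omega] at h2
  have h3 : (2:ℝ) ^ (-c * ((t - 3 : ℕ) : ℝ)) ≤ (2:ℝ) ^ (-c * ((t - g : ℕ) : ℝ)) := by
    refine Real.rpow_le_rpow_of_exponent_le (by norm_num) ?_
    have h4 : ((t - g : ℕ) : ℝ) ≤ ((t - 3 : ℕ) : ℝ) := by exact_mod_cast (by omega : t - g ≤ t - 3)
    nlinarith [h.2.1]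
  have h5 := mul_le_mul_of_nonneg_left h3 h.1.le
  refine (measureReal_union_le _ _).trans ?_
  unfold del
  linarith

theorem del_nonneg {C c : ℝ} (h : ArmB C c) (t g : ℕ) : 0 ≤ del C c t g := by
  unfold del
  have := h.1
  positivity

theorem card_class (m J : ℕ) (hm : 1 ≤ m) (t r : ℕ) :
    ((Finset.Ico t J).filter (fun k => k % m = r)).card ≤ J / m + 1 := by
  have h1 : ((Finset.Ico t J).filter (fun k => k % m = r)).card ≤ (Finset.range (J / m + 1)).card := by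
    refine Finset.card_le_card_of_injOn (fun k => k / m) ?_ ?_
    · intro k hk
      rw [Finset.coe_filter] at hk
      have h2 : k < J := (Finset.mem_Ico.1 hk.1).2
      rw [Finset.coe_range, Set.mem_Iio]
      exact Nat.lt_succ_of_le (Nat.div_le_div_right h2.le)
    · intro k hk k' hk' hkk
      rw [Finset.coe_filter] at hk hk'
      have h2 := Nat.div_add_mod k m
      have h3 := Nat.div_add_mod k' m
      have h4 : k % m = r := hk.2
      have h5 : k' % m = r := hk'.2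
      simp only at hkk
      rw [← h2, ← h3, hkk, h4, h5]
  rwa [Finset.card_range] at h1

/-- **Concentration of the logarithmic averages.** -/
theorem dev {C c : ℝ} (h : ArmB C c) {a b : ℕ → ℕ} {t g J N : ℕ} (hg : 3 ≤ g) (hgt : g ≤ t)
    (h1 : ∀ j, t ≤ j → ∀ L ∈ blk j, 2 * 2 ^ (j - g) ≤ b L + 1) (h2 : ∀ L, a L + b L ≤ L + 1)
    (hm : ∀ L, MeasurableSet (XC (a L) (b L))) (hN : J / (2 * t) + 1 ≤ N) (l : ℝ) (hl : 0 ≤ l) :
    perc.real {η | 2 * t * l + J * del C c t g < |∑ j ∈ Finset.Ico t J,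
      (fB a b j η - ∫ ω, fB a b j ω ∂perc)|} ≤
      J * del C c t g + 2 * t * (2 * Real.exp (-2 * l ^ 2 / N)) := by
  classical
  have hf : ∀ j, Measurable (fB a b j) := by
    intro j
    refine Finset.measurable_sum _ fun L _ => Measurable.const_mul ?_ _
    exact Measurable.ite (hm L) measurable_const measurable_const
  have hgm : ∀ j, Measurable (gB a b t j) := fun j => (gB_dep a b t j).measurable
  have fi : ∀ j, Integrable (fB a b j) perc := fun j =>
    Integrable.of_mem_Icc 0 1 (hf j).aemeasurable (ae_of_all _ (fB_mem a b j))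
  have gi : ∀ j, Integrable (gB a b t j) perc := fun j =>
    Integrable.of_mem_Icc 0 1 (hgm j).aemeasurable (ae_of_all _ fun η => fB_mem a b j _)
  have hdiff : ∀ j ∈ Finset.Ico t J, |(∫ ω, gB a b t j ω ∂perc) - ∫ ω, fB a b j ω ∂perc| ≤
      del C c t g := by
    intro j hj
    have hj1 := (Finset.mem_Ico.1 hj).1
    set D : Set Conf := {η | fB a b j η ≠ gB a b t j η} with hD
    have hDm : MeasurableSet D := (measurableSet_eq_fun (hf j) (hgm j)).compl
    have hDA : D ⊆ AE t g j := by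
      intro η hη
      by_contra hc
      exact hη (fB_eq (h1 j hj1) h2 hc)
    rw [← integral_sub (gi j) (fi j)]
    have h3 : ∀ η, ‖gB a b t j η - fB a b j η‖ ≤ D.indicator (fun _ => (1:ℝ)) η := by
      intro η
      by_cases hη : η ∈ D
      · rw [Set.indicator_of_mem hη, Real.norm_eq_abs, abs_le]
        have h4 := fB_mem a b j η
        have h5 : gB a b t j η ∈ Set.Icc (0:ℝ) 1 := fB_mem a b j _
        exact ⟨by linarith [h4.1, h4.2, h5.1, h5.2], by linarith [h4.1, h4.2, h5.1, h5.2]⟩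
      · rw [Set.indicator_of_notMem hη]
        have : fB a b j η = gB a b t j η := by
          by_contra hc
          exact hη hc
        rw [this, sub_self, norm_zero]
    have h4 := norm_integral_le_of_norm_le (μ := perc)
      ((integrable_const (1:ℝ)).indicator hDm) (ae_of_all _ h3)
    rw [Real.norm_eq_abs, integral_indicator_const _ hDm, smul_eq_mul, mul_one] at h4
    exact h4.trans ((measureReal_mono hDA).trans (AE_bound h hg hgt hj1))
  have hconc := conc (SF t) (gB a b t) (fun k ω => fB_mem a b k _) (gB_dep a b t) (2 * t) (by omega)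
    (Finset.Ico t J) (fun j _ k _ hjk => SF_disj hjk) N
    (fun r _ => (card_class (2 * t) J (by omega) t r).trans hN) l hl
  have hsub : {η | 2 * t * l + J * del C c t g < |∑ j ∈ Finset.Ico t J,
      (fB a b j η - ∫ ω, fB a b j ω ∂perc)|} ⊆
      (⋃ j ∈ Finset.Ico t J, AE t g j) ∪ {ω | ((2 * t : ℕ) : ℝ) * l ≤ |∑ k ∈ Finset.Ico t J,
        (gB a b t k ω - ∫ ω', gB a b t k ω' ∂perc)|} := by
    intro η hη
    simp only [Set.mem_ofPred_eq] at hη
    by_contra hc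
    rw [Set.mem_union, not_or] at hc
    obtain ⟨hc1, hc2⟩ := hc
    simp only [Set.mem_iUnion, not_exists] at hc1
    simp only [Set.mem_ofPred_eq, not_le] at hc2
    have e1 : ∑ j ∈ Finset.Ico t J, (fB a b j η - ∫ ω, fB a b j ω ∂perc) =
        ∑ j ∈ Finset.Ico t J, (gB a b t j η - ∫ ω, gB a b t j ω ∂perc) +
        ∑ j ∈ Finset.Ico t J, ((∫ ω, gB a b t j ω ∂perc) - ∫ ω, fB a b j ω ∂perc) := by
      rw [← Finset.sum_add_distrib]
      refine Finset.sum_congr rfl fun j hj => ?_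
      rw [fB_eq (h1 j (Finset.mem_Ico.1 hj).1) h2 (hc1 j hj)]
      ring
    have e2 : |∑ j ∈ Finset.Ico t J, ((∫ ω, gB a b t j ω ∂perc) - ∫ ω, fB a b j ω ∂perc)| ≤
        J * del C c t g := by
      refine (Finset.abs_sum_le_sum_abs _ _).trans ((Finset.sum_le_card_nsmul _ _ _ hdiff).trans ?_)
      rw [Nat.card_Ico, nsmul_eq_mul]
      refine mul_le_mul_of_nonneg_right ?_ (del_nonneg h t g)
      exact_mod_cast Nat.sub_le J t
    rw [e1] at hη
    have e3 := abs_add_le (∑ j ∈ Finset.Ico t J, (gB a b t j η - ∫ ω, gB a b t j ω ∂perc))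
      (∑ j ∈ Finset.Ico t J, ((∫ ω, gB a b t j ω ∂perc) - ∫ ω, fB a b j ω ∂perc))
    push_cast at hc2
    linarith
  refine (measureReal_mono hsub).trans ((measureReal_union_le _ _).trans ?_)
  have hA : perc.real (⋃ j ∈ Finset.Ico t J, AE t g j) ≤ J * del C c t g := by
    refine (measureReal_biUnion_finset_le _ _).trans ?_
    refine (Finset.sum_le_card_nsmul _ _ _ fun j hj =>
      AE_bound h hg hgt (Finset.mem_Ico.1 hj).1).trans ?_
    rw [Nat.card_Ico, nsmul_eq_mul]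
    refine mul_le_mul_of_nonneg_right ?_ (del_nonneg h t g)
    exact_mod_cast Nat.sub_le J t
  push_cast at hconc
  push_cast
  linarith

end Pool.Agent.Zk36.AC
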