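import Pool.Agent.Zk36.AC.Fin

/-!
# Almost sure Cardy formula: conclusion
-/

set_option autoImplicit false

namespace Pool.Agent.Zk36.AC

open Pool.Agent.H988R2.Perc (Conf OpenAdj perc coin Edge)
open Pool.Agent.H984Q (RightFirst)
open Pool.Agent.H31C (S_Exact)
open Pool.Agent.H980R4.Rate (F F_one)
open Finset MeasureTheory ProbabilityTheory Filter Topology

theorem el_small (K : ℕ) : ∀ᶠ J : ℕ in atTop, K * el J ≤ J := by
  have h1 : Tendsto (fun J : ℕ => Real.log (J:ℝ) / J) atTop (𝓝 0) := by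
    have := Real.isLittleO_log_id_atTop.tendsto_div_nhds_zero
    exact this.comp tendsto_natCast_atTop_atTop
  have h2 : Tendsto (fun J : ℕ => (K:ℝ) * (2 * (Real.log (J:ℝ) / J) + 1 / J)) atTop (𝓝 0) := by
    have h3 : Tendsto (fun J : ℕ => (1:ℝ) / J) atTop (𝓝 0) := tendsto_one_div_atTop_nhds_zero_nat
    have := ((h1.const_mul 2).add h3).const_mul (K:ℝ)
    simpa using this
  filter_upwards [h2.eventually_lt_const (show (0:ℝ) < 1 by norm_num), eventually_ge_atTop 1]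
    with J h3 hJ
  have hJ0 : (0:ℝ) < J := by exact_mod_cast hJ
  have h4 : ((Nat.log 2 J : ℕ) : ℝ) ≤ 2 * Real.log J := by
    have h5 : (2:ℝ) ^ (Nat.log 2 J) ≤ J := by exact_mod_cast Nat.pow_log_le_self 2 (by omega)
    have h6 := Real.log_le_log (by positivity) h5
    rw [Real.log_pow] at h6
    have h7 := Real.log_two_gt_d9
    nlinarith [(Nat.cast_nonneg (Nat.log 2 J) : (0:ℝ) ≤ (Nat.log 2 J : ℕ))]
  have h5 : (K:ℝ) * (el J : ℕ) ≤ J := by
    have e : (K:ℝ) * (2 * (Real.log (J:ℝ) / J) + 1 / J) * J = K * (2 * Real.log J + 1) := by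
      field_simp
    have h6 : (K:ℝ) * (2 * Real.log J + 1) < J := by
      rw [← e]
      nlinarith
    refine le_trans ?_ h6.le
    refine mul_le_mul_of_nonneg_left ?_ (Nat.cast_nonneg K)
    unfold el
    push_cast
    linarith
  exact_mod_cast h5

theorem thr_le {C : ℝ} {K J : ℕ} (hK : 10 ≤ K) (ht : K * el J ≤ J) :
    thr C K J ≤ 2 * (K * el J) * √J + 2 * C := by
  unfold thr
  have h1 : (5:ℝ) * el J * nb K J ≤ J := by
    have h2 : 20 * (el J * nb K J) ≤ 4 * J := by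
      unfold nb
      set q := J / (2 * (K * el J)) with hq
      have h3 : 2 * (K * el J) * q ≤ J := Nat.mul_div_le _ _
      have h4 : 10 * el J ≤ J := (Nat.mul_le_mul_right _ hK).trans ht
      have h5 : 10 * (el J * q) ≤ K * (el J * q) := Nat.mul_le_mul_right _ hK
      nlinarith
    have h3 : (20:ℝ) * (el J * nb K J) ≤ 4 * J := by exact_mod_cast h2
    linarith
  have h2 : √(5 * (el J : ℝ) * nb K J) ≤ √J := Real.sqrt_le_sqrt h1
  push_cast
  have h3 : (0:ℝ) ≤ 2 * (K * el J) := by positivity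
  nlinarith [mul_le_mul_of_nonneg_left h2 h3]

/-- the error in terms of `J` -/
theorem err_J {C : ℝ} (hC : 0 < C) {K J n : ℕ} (hK : 10 ≤ K) (hJ : 1 ≤ J) (ht : K * el J ≤ J)
    (hn : 2 ^ J ≤ n) :
    12 / J + (K * el J + 75 + thr C K J) / Real.log n ≤
      (162 + 6 * K + 4 * C) * (el J / √J) := by
  have hJ0 : (1:ℝ) ≤ J := by exact_mod_cast hJ
  have hs : 0 < √(J:ℝ) := Real.sqrt_pos.2 (by linarith)
  have hs1 : 1 ≤ √(J:ℝ) := Real.one_le_sqrt.2 hJ0
  have hss : √(J:ℝ) * √(J:ℝ) = J := Real.mul_self_sqrt (by linarith)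
  have he : (1:ℝ) ≤ el J := by exact_mod_cast el_pos J
  have hlog : (J:ℝ) / 2 ≤ Real.log n := by
    have h1 : (2:ℝ) ^ J ≤ n := by exact_mod_cast hn
    have h2 := Real.log_le_log (by positivity) h1
    rw [Real.log_pow] at h2
    have h3 := Real.log_two_gt_d9
    nlinarith
  have hK0 : (0:ℝ) ≤ K := Nat.cast_nonneg K
  have hA : 0 ≤ (K:ℝ) * el J := by positivity
  have h1 := thr_le (C := C) hK ht
  have h2 : (K * el J + 75 + thr C K J) / Real.log n ≤
      (K * el J + 75 + (2 * (K * el J) * √J + 2 * C)) / (J / 2) := by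
    refine div_le_div₀ (by positivity) (by linarith) (by positivity) hlog
  have h3 : 12 / (J:ℝ) + (K * el J + 75 + (2 * (K * el J) * √J + 2 * C)) / (J / 2) =
      (162 + 2 * (K * el J) + 4 * (K * el J) * √J + 4 * C) / J := by
    field_simp
    ring
  have h4 : (162 + 2 * (K * el J) + 4 * (K * el J) * √J + 4 * C) / J ≤
      (162 + 6 * K + 4 * C) * (el J / √J) := by
    rw [div_le_iff₀ (by linarith)]
    have e : (162 + 6 * (K:ℝ) + 4 * C) * (el J / √J) * J = (162 + 6 * K + 4 * C) * (el J * √J) := by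
      nth_rewrite 2 [← hss]
      field_simp
    rw [e]
    have h5 : 1 ≤ el J * √(J:ℝ) := by nlinarith
    have h6 : (el J : ℝ) ≤ el J * √(J:ℝ) := by nlinarith
    have h7 : 2 * ((K:ℝ) * el J) ≤ 2 * (K * (el J * √(J:ℝ))) := by nlinarith
    nlinarith
  linarith

theorem err_n {J n : ℕ} (hJ : 4 ≤ J) (hn : 2 ^ J ≤ n) (hn2 : n < 2 ^ (J + 1)) 
    (hl : 1 ≤ Real.log (Real.log n)) :
    (el J : ℝ) / √J ≤ 10 * (Real.log (Real.log n) / √(Real.log n)) := by
  have hJ0 : (4:ℝ) ≤ J := by exact_mod_cast hJ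
  have l2 := Real.log_two_gt_d9
  have l2' := Real.log_two_lt_d9
  have hn0 : (0:ℝ) < n := by
    have : 0 < n := lt_of_lt_of_le (by positivity) hn
    exact_mod_cast this
  have h1 : (J:ℝ) / 2 ≤ Real.log n := by
    have h1 : (2:ℝ) ^ J ≤ n := by exact_mod_cast hn
    have h2 := Real.log_le_log (by positivity) h1
    rw [Real.log_pow] at h2
    nlinarith
  have h2 : Real.log n ≤ J + 1 := by
    have h1 : (n:ℝ) ≤ 2 ^ (J + 1) := by exact_mod_cast hn2.le
    have h2 := Real.log_le_log hn0 h1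
    rw [Real.log_pow] at h2
    push_cast at h2
    nlinarith
  have hlog0 : 0 < Real.log n := by linarith
  have h3 : √(Real.log n) ≤ 2 * √J := by
    rw [Real.sqrt_le_left (by positivity), mul_pow, Real.sq_sqrt (by linarith)]
    linarith
  have h4 : (el J : ℝ) ≤ 5 * Real.log (Real.log n) := by
    have h5 : (2:ℝ) ^ (Nat.log 2 J) ≤ J := by exact_mod_cast Nat.pow_log_le_self 2 (by omega)
    have h6 : (2:ℝ) ^ (Nat.log 2 J) ≤ 2 * Real.log n := by linarith
    have h7 := Real.log_le_log (by positivity) h6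
    rw [Real.log_pow, Real.log_mul (by norm_num) hlog0.ne'] at h7
    have h8 : ((Nat.log 2 J : ℕ) : ℝ) ≤ 2 * (Real.log 2 + Real.log (Real.log n)) := by
      nlinarith [(Nat.cast_nonneg (Nat.log 2 J) : (0:ℝ) ≤ (Nat.log 2 J : ℕ))]
    unfold el
    push_cast
    nlinarith
  have hsJ : 0 < √(J:ℝ) := Real.sqrt_pos.2 (by linarith)
  have hsn : 0 < √(Real.log n) := Real.sqrt_pos.2 hlog0
  rw [← mul_div_assoc, div_le_div_iff₀ hsJ hsn]
  calc (el J : ℝ) * √(Real.log n) ≤ (5 * Real.log (Real.log n)) * (2 * √J) := by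
        gcongr
    _ = 10 * Real.log (Real.log n) * √J := by ring

theorem final (hX : S_Exact) : ∃ C : ℝ, ∀ᵐ ω ∂perc, ∀ᶠ n : ℕ in atTop, ∀ x ∈ Set.Icc (0:ℝ) 1,
    |emp n x ω - F x| ≤ C * Real.log (Real.log n) / √(Real.log n) := by
  obtain ⟨C, c, hC, hc, h⟩ := arm_bound
  have hA : ArmB C c := ⟨hC, hc, h⟩
  obtain ⟨K, hK1, hK⟩ : ∃ K : ℕ, 7 ≤ c * (K - 4) ∧ 10 ≤ K := by
    refine ⟨max 10 (⌈7 / c⌉₊ + 4), ?_, le_max_left _ _⟩
    have h1 : (7 / c) ≤ ⌈7 / c⌉₊ := Nat.le_ceil _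
    have h2 : ((⌈7 / c⌉₊ : ℕ) : ℝ) + 4 ≤ ((max 10 (⌈7 / c⌉₊ + 4) : ℕ) : ℝ) := by
      exact_mod_cast le_max_right _ _
    have h3 : c * (7 / c) ≤ c * (((max 10 (⌈7 / c⌉₊ + 4) : ℕ) : ℝ) - 4) :=
      mul_le_mul_of_nonneg_left (by linarith) hc.le
    rwa [mul_div_cancel₀ _ hc.ne'] at h3
  refine ⟨(162 + 6 * K + 4 * C) * 10, ?_⟩
  filter_upwards [ae_good hX, ae_good_scales hA hK hK1] with ω hω hB
  have hlogn : Tendsto (fun n : ℕ => Nat.log 2 n) atTop atTop := by
    refine tendsto_atTop_atTop.2 fun b => ⟨2 ^ b, fun n hn => ?_⟩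
    exact Nat.le_log_of_pow_le (by norm_num) hn
  have hll : Tendsto (fun n : ℕ => Real.log (Real.log n)) atTop atTop :=
    Real.tendsto_log_atTop.comp (Real.tendsto_log_atTop.comp tendsto_natCast_atTop_atTop)
  filter_upwards [hlogn.eventually hB, hlogn.eventually (el_small K),
    hlogn.eventually (eventually_ge_atTop 4), hll.eventually_ge_atTop 1, eventually_ge_atTop 1]
    with n h1 h2 h3 h4 h5 x hx
  have hn1 : 2 ^ Nat.log 2 n ≤ n := Nat.pow_log_le_self 2 (by omega)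
  have hn2 : n < 2 ^ (Nat.log 2 n + 1) := Nat.lt_pow_succ_log_self (by norm_num) n
  have e1 := main_det hX hC hK (by omega) h2 hn1 hn2 hω h1 hx
  have e2 := err_J hC hK (by omega) h2 hn1
  have e3 := err_n h3 hn1 hn2 h4
  have e4 : (0:ℝ) ≤ 162 + 6 * K + 4 * C := by positivity
  have e5 := mul_le_mul_of_nonneg_left e3 e4
  calc |emp n x ω - F x| ≤ _ := e1
    _ ≤ _ := e2
    _ ≤ _ := e5
    _ = _ := by ring

end Pool.Agent.Zk36.AC
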