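import Pool.Agent.Zk36.AC.Main

/-!
# Almost sure Cardy formula: the deterministic part and the conclusion
-/

set_option autoImplicit false

namespace Pool.Agent.Zk36.AC

open Pool.Agent.H988R2.Perc (Conf OpenAdj perc coin Edge)
open Pool.Agent.H984Q (RightFirst)
open Pool.Agent.H31C (S_Exact)
open Pool.Agent.H980R4.Rate (F F_one)
open Finset MeasureTheory ProbabilityTheory Filter Topology

/-- the sum of the inverse scales -/
noncomputable def HH (t J : ℕ) : ℝ := ∑ j ∈ Finset.Ico t J, ∑ L ∈ blk j, (L : ℝ)⁻¹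

theorem HH_le (t J : ℕ) : HH t J ≤ J := by
  unfold HH
  refine (Finset.sum_le_card_nsmul _ _ 1 fun j _ => sum_inv_blk j).trans ?_
  rw [Nat.card_Ico, nsmul_eq_mul, mul_one]
  exact_mod_cast Nat.sub_le J t

theorem HH_nonneg (t J : ℕ) : 0 ≤ HH t J :=
  Finset.sum_nonneg fun _ _ => Finset.sum_nonneg fun _ _ => by positivity

theorem HH_log {t J n : ℕ} (h : t ≤ J) (hn : 2 ^ J ≤ n) (hn2 : n < 2 ^ (J + 1)) :
    Real.log n - t - 1 ≤ HH t J ∧ HH t J ≤ Real.log n + 1 := by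
  have h1 : 1 ≤ n := Nat.one_le_two_pow.trans hn
  obtain ⟨h2, h3⟩ := harm_bounds h1
  rw [sum_three (fun L : ℕ => (L : ℝ)⁻¹) h hn] at h2 h3
  have h4 := sum_low t
  have h5 := sum_top hn2
  have h6 : 0 ≤ ∑ L ∈ (Finset.Ico 1 (2 ^ t) : Finset ℕ), (L : ℝ)⁻¹ :=
    Finset.sum_nonneg fun _ _ => by positivity
  have h7 : 0 ≤ ∑ L ∈ (Finset.Ico (2 ^ J) (n + 1) : Finset ℕ), (L : ℝ)⁻¹ :=
    Finset.sum_nonneg fun _ _ => by positivity
  unfold HH
  constructor <;> linarith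

theorem third {K J j L : ℕ} (hK : 10 ≤ K) (hJ : 1 ≤ J) (hj : K * el J ≤ j) (hL : L ∈ blk j) :
    (L : ℝ) ^ (-(1/3) : ℝ) ≤ 1 / J := by
  have h1 : 2 ^ (3 * el J) ≤ L := by
    have := big_L hK hj hL
    unfold gr at this
    omega
  have h2 : ((2:ℝ) ^ (3 * el J)) ≤ L := by exact_mod_cast h1
  have h3 : (L : ℝ) ^ (-(1/3) : ℝ) ≤ ((2:ℝ) ^ (3 * el J)) ^ (-(1/3) : ℝ) :=
    Real.rpow_le_rpow_of_nonpos (by positivity) h2 (by norm_num)
  have h4 : ((2:ℝ) ^ (3 * el J)) ^ (-(1/3) : ℝ) = ((2:ℝ) ^ el J)⁻¹ := by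
    rw [← Real.rpow_natCast, ← Real.rpow_mul (by norm_num), ← Real.rpow_natCast,
      ← Real.rpow_neg (by norm_num)]
    congr 1
    push_cast
    ring
  have h5 : (J:ℝ) ≤ 2 ^ el J := by exact_mod_cast (lt_el J).le
  have h6 : (0:ℝ) < J := by exact_mod_cast hJ
  rw [h4] at h3
  refine h3.trans ?_
  rw [one_div]
  exact inv_anti₀ h6 h5

/-- the means of the sums -/
theorem mean_near (hX : S_Exact) {K J i : ℕ} (hK : 10 ≤ K) (hJ : 1 ≤ J) (hi : i < gr J) :
    |∑ j ∈ Finset.Ico (K * el J) J, (∫ ω, fB (aa (gr J) i) (bb (gr J) i) j ω ∂perc) -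
      F ((i : ℝ) / gr J) * HH (K * el J) J| ≤ 72 := by
  classical
  have hJ0 : (0:ℝ) < J := by exact_mod_cast hJ
  have h1 : ∀ j ∈ Finset.Ico (K * el J) J,
      |(∫ ω, fB (aa (gr J) i) (bb (gr J) i) j ω ∂perc) -
        F ((i : ℝ) / gr J) * ∑ L ∈ blk j, (L : ℝ)⁻¹| ≤ 72 / J * ∑ L ∈ blk j, (L : ℝ)⁻¹ := by
    intro j hj
    have hj1 := (Finset.mem_Ico.1 hj).1
    have hm : ∀ L, Measurable (iXC (aa (gr J) i L) (bb (gr J) i L)) := fun L =>
      Measurable.ite (meas_XC (aa_odd _ _ _)) measurable_const measurable_const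
    have e1 : (∫ ω, fB (aa (gr J) i) (bb (gr J) i) j ω ∂perc) =
        ∑ L ∈ blk j, (L : ℝ)⁻¹ * ∫ ω, iXC (aa (gr J) i L) (bb (gr J) i L) ω ∂perc := by
      unfold fB
      rw [integral_finsetSum]
      · refine Finset.sum_congr rfl fun L _ => ?_
        rw [integral_const_mul]
      · intro L _
        refine Integrable.const_mul ?_ _
        exact Integrable.of_mem_Icc 0 1 (hm L).aemeasurable (ae_of_all _ (iXC_mem _ _))
    rw [e1, Finset.mul_sum, ← Finset.sum_sub_distrib, Finset.mul_sum]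
    refine (Finset.abs_sum_le_sum_abs _ _).trans (Finset.sum_le_sum fun L hL => ?_)
    have h2 := int_near hX (gr_pos J) hi (big_L hK hj1 hL)
    have h3 := third hK hJ hj1 hL
    rw [mul_comm (F _) _, ← mul_sub, abs_mul, abs_of_nonneg (by positivity : (0:ℝ) ≤ (L:ℝ)⁻¹),
      mul_comm (72 / (J:ℝ))]
    refine mul_le_mul_of_nonneg_left (h2.trans ?_) (by positivity)
    calc 72 * (L : ℝ) ^ (-(1/3) : ℝ) ≤ 72 * (1 / J) := by gcongr
      _ = 72 / J := by ring
  have h2 : |∑ j ∈ Finset.Ico (K * el J) J, ((∫ ω, fB (aa (gr J) i) (bb (gr J) i) j ω ∂perc) -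
        F ((i : ℝ) / gr J) * ∑ L ∈ blk j, (L : ℝ)⁻¹)| ≤ 72 / J * HH (K * el J) J := by
    refine (Finset.abs_sum_le_sum_abs _ _).trans ((Finset.sum_le_sum h1).trans (le_of_eq ?_))
    unfold HH
    rw [Finset.mul_sum]
  rw [Finset.sum_sub_distrib, ← Finset.mul_sum] at h2
  refine (le_of_eq ?_).trans (h2.trans ?_)
  · rfl
  · calc 72 / J * HH (K * el J) J ≤ 72 / J * J :=
        mul_le_mul_of_nonneg_left (HH_le _ _) (by positivity)
      _ = 72 := by field_simp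

/-- the empirical distribution function (logarithmic weights) -/
noncomputable def emp (n : ℕ) (x : ℝ) (ω : Conf) : ℝ :=
  (∑ L ∈ Finset.Icc 1 n, (L : ℝ)⁻¹ * iP x L ω) / Real.log n

theorem F_gap {x y : ℝ} {J : ℕ} (hJ : 1 ≤ J) (hx : x ∈ Set.Icc (0:ℝ) 1) (hy : y ∈ Set.Icc (0:ℝ) 1)
    (h : |y - x| ≤ 8 / gr J) : |F y - F x| ≤ 12 / J := by
  refine (F_abs hx hy).trans ?_
  have h1 : |y - x| ^ (1/3 : ℝ) ≤ (8 / (gr J : ℝ)) ^ (1/3 : ℝ) :=
    Real.rpow_le_rpow (abs_nonneg _) h (by norm_num)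
  have h2 : (8 / (gr J : ℝ)) ^ (1/3 : ℝ) = 2 / 2 ^ el J := by
    have e1 : (8 / (gr J : ℝ)) = (2 / 2 ^ el J) ^ (3:ℝ) := by
      unfold gr
      push_cast
      rw [show (3:ℝ) = ((3:ℕ):ℝ) by norm_num, Real.rpow_natCast, div_pow, ← pow_mul]
      congr 1
      · norm_num
      · congr 1; ring
    rw [e1, ← Real.rpow_mul (by positivity)]
    norm_num
  have h5 : (J:ℝ) ≤ 2 ^ el J := by exact_mod_cast (lt_el J).le
  have h6 : (0:ℝ) < J := by exact_mod_cast hJ
  have h7 : (2:ℝ) / 2 ^ el J ≤ 2 / J := div_le_div_of_nonneg_left (by norm_num) h6 h5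
  calc 6 * |y - x| ^ (1/3 : ℝ) ≤ 6 * (2 / J) := by
        refine mul_le_mul_of_nonneg_left (h1.trans ?_) (by norm_num)
        rw [h2]
        exact h7
    _ = 12 / J := by ring

theorem main_det (hX : S_Exact) {C : ℝ} (hC : 0 < C) {K J n : ℕ} (hK : 10 ≤ K) (hJ : 1 ≤ J) (ht : K * el J ≤ J)
    (hn : 2 ^ J ≤ n) (hn2 : n < 2 ^ (J + 1)) {ω : Conf} (hω : Good ω) (hB : ω ∉ Bad C K J)
    {x : ℝ} (hx : x ∈ Set.Icc (0:ℝ) 1) :
    |emp n x ω - F x| ≤ 12 / J + (K * el J + 75 + thr C K J) / Real.log n := by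
  have hG := gr_pos J
  have hG0 : (0:ℝ) < gr J := by exact_mod_cast hG
  have hJ0 : (0:ℝ) < J := by exact_mod_cast hJ
  have hthr : 0 ≤ thr C K J := by unfold thr; positivity
  have hlog : 0 < Real.log n := by
    apply Real.log_pos
    have h1 : 2 ≤ n := by
      calc 2 = 2 ^ 1 := by norm_num
        _ ≤ 2 ^ J := Nat.pow_le_pow_right (by norm_num) hJ
        _ ≤ n := hn
    exact_mod_cast (by omega : 1 < n)
  obtain ⟨hH1, hH2⟩ := HH_log ht hn hn2
  push_cast at hH1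
  have hsum : ∑ L ∈ Finset.Icc 1 n, (L : ℝ)⁻¹ * iP x L ω =
      ∑ L ∈ (Finset.Ico 1 (2 ^ (K * el J)) : Finset ℕ), (L : ℝ)⁻¹ * iP x L ω +
      ∑ j ∈ Finset.Ico (K * el J) J, ∑ L ∈ blk j, (L : ℝ)⁻¹ * iP x L ω +
      ∑ L ∈ (Finset.Ico (2 ^ J) (n + 1) : Finset ℕ), (L : ℝ)⁻¹ * iP x L ω :=
    sum_three (fun L : ℕ => (L : ℝ)⁻¹ * iP x L ω) ht hn
  have a1 : 0 ≤ ∑ L ∈ (Finset.Ico 1 (2 ^ (K * el J)) : Finset ℕ), (L : ℝ)⁻¹ * iP x L ω :=
    Finset.sum_nonneg fun L _ => mul_nonneg (by positivity) (iP_mem _ _ _).1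
  have a2 : ∑ L ∈ (Finset.Ico 1 (2 ^ (K * el J)) : Finset ℕ), (L : ℝ)⁻¹ * iP x L ω ≤ K * el J := by
    refine (Finset.sum_le_sum fun L _ =>
      mul_le_of_le_one_right (by positivity) (iP_mem _ _ _).2).trans ?_
    refine (sum_low _).trans (le_of_eq ?_)
    push_cast
    ring
  have a3 : 0 ≤ ∑ L ∈ (Finset.Ico (2 ^ J) (n + 1) : Finset ℕ), (L : ℝ)⁻¹ * iP x L ω :=
    Finset.sum_nonneg fun L _ => mul_nonneg (by positivity) (iP_mem _ _ _).1
  have a4 : ∑ L ∈ (Finset.Ico (2 ^ J) (n + 1) : Finset ℕ), (L : ℝ)⁻¹ * iP x L ω ≤ 1 := by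
    refine (Finset.sum_le_sum fun L _ =>
      mul_le_of_le_one_right (by positivity) (iP_mem _ _ _).2).trans ?_
    exact sum_top hn2
  set S : ℝ := ∑ L ∈ Finset.Icc 1 n, (L : ℝ)⁻¹ * iP x L ω with hS
  set M : ℝ := ∑ j ∈ Finset.Ico (K * el J) J, ∑ L ∈ blk j, (L : ℝ)⁻¹ * iP x L ω with hM
  -- concentration for the grid
  have hgrid : ∀ i < gr J, |∑ j ∈ Finset.Ico (K * el J) J, fB (aa (gr J) i) (bb (gr J) i) j ω -
      F ((i : ℝ) / gr J) * HH (K * el J) J| ≤ thr C K J + 72 := by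
    intro i hi
    have h1 : |∑ j ∈ Finset.Ico (K * el J) J, (fB (aa (gr J) i) (bb (gr J) i) j ω -
        ∫ ω, fB (aa (gr J) i) (bb (gr J) i) j ω ∂perc)| ≤ thr C K J := by
      by_contra hc
      exact hB ⟨i, hi, not_le.1 hc⟩
    have h2 := mean_near hX hK hJ hi
    rw [Finset.sum_sub_distrib] at h1
    rw [abs_le] at h1 h2 ⊢
    constructor <;> linarith [h1.1, h1.2, h2.1, h2.2]
  obtain ⟨hx0, hx1⟩ := hx
  have hlow : F x - 12 / J - (K * el J + 75 + thr C K J) / Real.log n ≤ emp n x ω := by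
    set i : ℕ := min ⌊x * gr J⌋₊ (gr J - 1) with hi
    have hiG : i < gr J := lt_of_le_of_lt (min_le_right _ _) (by omega)
    have h1 : (i:ℝ) ≤ x * gr J := by
      refine le_trans ?_ (Nat.floor_le (by positivity))
      exact_mod_cast min_le_left _ _
    have h2 : x * gr J ≤ i + 1 := by
      rcases le_total ⌊x * (gr J : ℝ)⌋₊ (gr J - 1) with h3 | h3
      · rw [hi, min_eq_left h3]
        exact (Nat.lt_floor_add_one _).le
      · rw [hi, min_eq_right h3]
        rw [Nat.cast_sub (by omega)]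
        push_cast
        nlinarith
    have h3 : ∑ j ∈ Finset.Ico (K * el J) J, fB (aa (gr J) i) (bb (gr J) i) j ω ≤ M := by
      refine Finset.sum_le_sum fun j hj => Finset.sum_le_sum fun L hL => ?_
      refine mul_le_mul_of_nonneg_left ?_ (by positivity)
      exact lower hG hiG (big_L hK (Finset.mem_Ico.1 hj).1 hL) hω h1
    have h4 := (abs_le.1 (hgrid i hiG)).1
    have m1 : (i:ℝ) / gr J ∈ Set.Icc (0:ℝ) 1 := by
      refine ⟨by positivity, ?_⟩
      rw [div_le_one hG0]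
      exact_mod_cast hiG.le
    have h5 : |F x - F ((i:ℝ) / gr J)| ≤ 12 / J := by
      refine F_gap hJ m1 ⟨hx0, hx1⟩ ?_
      rw [abs_le]
      have e1 : x - i / gr J = (x * gr J - i) / gr J := by field_simp
      rw [e1]
      constructor
      · have : 0 ≤ (x * gr J - i) / gr J := div_nonneg (by linarith) hG0.le
        have : 0 ≤ 8 / (gr J : ℝ) := by positivity
        linarith
      · exact div_le_div_of_nonneg_right (by linarith) hG0.le
    have h6 := F_mem m1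
    have h7 : F ((i:ℝ) / gr J) * (Real.log n - K * el J - 1) ≤
        F ((i:ℝ) / gr J) * HH (K * el J) J := mul_le_mul_of_nonneg_left hH1 h6.1
    have h8 : F ((i:ℝ) / gr J) * Real.log n - (K * el J + 1) ≤
        F ((i:ℝ) / gr J) * (Real.log n - K * el J - 1) := by
      have h9 : F ((i:ℝ) / gr J) * (K * el J + 1) ≤ K * el J + 1 :=
        mul_le_of_le_one_left (by positivity) h6.2
      linarith
    have h10 : (F x - 12 / J) * Real.log n ≤ F ((i:ℝ) / gr J) * Real.log n :=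
      mul_le_mul_of_nonneg_right (by linarith [(abs_le.1 h5).2]) hlog.le
    show _ ≤ S / Real.log n
    rw [le_div_iff₀ hlog, sub_mul, div_mul_cancel₀ _ hlog.ne', hsum]
    linarith
  have hup : emp n x ω ≤ F x + 12 / J + (K * el J + 75 + thr C K J) / Real.log n := by
    set i : ℕ := ⌊x * (gr J : ℝ)⌋₊ + 4 with hi
    have f1 := Nat.floor_le (show 0 ≤ x * (gr J : ℝ) by positivity)
    have f2 := Nat.lt_floor_add_one (x * (gr J : ℝ))
    have hi' : (i:ℝ) = (⌊x * (gr J : ℝ)⌋₊ : ℝ) + 4 := by rw [hi]; push_cast; ring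
    by_cases hiG : i < gr J
    · have h1 : x * gr J + 3 ≤ (i:ℝ) := by rw [hi']; linarith
      have h3 : M ≤ ∑ j ∈ Finset.Ico (K * el J) J, fB (aa (gr J) i) (bb (gr J) i) j ω := by
        refine Finset.sum_le_sum fun j hj => Finset.sum_le_sum fun L hL => ?_
        refine mul_le_mul_of_nonneg_left ?_ (by positivity)
        exact upper hG hiG (big_L hK (Finset.mem_Ico.1 hj).1 hL) hω h1
      have h4 := (abs_le.1 (hgrid i hiG)).2
      have m1 : (i:ℝ) / gr J ∈ Set.Icc (0:ℝ) 1 := by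
        refine ⟨by positivity, ?_⟩
        rw [div_le_one hG0]
        exact_mod_cast hiG.le
      have h5 : |F ((i:ℝ) / gr J) - F x| ≤ 12 / J := by
        refine F_gap hJ ⟨hx0, hx1⟩ m1 ?_
        rw [abs_le]
        have e1 : (i:ℝ) / gr J - x = (i - x * gr J) / gr J := by field_simp
        rw [e1]
        constructor
        · have : 0 ≤ ((i:ℝ) - x * gr J) / gr J := div_nonneg (by linarith) hG0.le
          have : 0 ≤ 8 / (gr J : ℝ) := by positivity
          linarith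
        · exact div_le_div_of_nonneg_right (by linarith) hG0.le
      have h6 := F_mem m1
      have h7 : F ((i:ℝ) / gr J) * HH (K * el J) J ≤ F ((i:ℝ) / gr J) * (Real.log n + 1) :=
        mul_le_mul_of_nonneg_left hH2 h6.1
      have h10 : F ((i:ℝ) / gr J) * Real.log n ≤ (F x + 12 / J) * Real.log n :=
        mul_le_mul_of_nonneg_right (by linarith [(abs_le.1 h5).2]) hlog.le
      show S / Real.log n ≤ _
      rw [div_le_iff₀ hlog, add_mul, div_mul_cancel₀ _ hlog.ne', hsum]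
      linarith [h6.2]
    · push Not at hiG
      have h1 : (gr J : ℝ) ≤ x * gr J + 4 := by
        have : (gr J : ℝ) ≤ i := by exact_mod_cast hiG
        rw [hi'] at this
        linarith
      have h5 : |F 1 - F x| ≤ 12 / J := by
        refine F_gap hJ ⟨hx0, hx1⟩ ⟨zero_le_one, le_rfl⟩ ?_
        rw [abs_of_nonneg (by linarith), le_div_iff₀ hG0]
        linarith
      rw [F_one] at h5
      have h6 : S ≤ 1 + Real.log n := by
        refine le_trans ?_ (harm_bounds (Nat.one_le_two_pow.trans hn)).2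
        exact Finset.sum_le_sum fun L _ =>
          mul_le_of_le_one_right (by positivity) (iP_mem _ _ _).2
      have h10 : 1 * Real.log n ≤ (F x + 12 / J) * Real.log n :=
        mul_le_mul_of_nonneg_right (by linarith [(abs_le.1 h5).2]) hlog.le
      have h11 : (0:ℝ) ≤ K * el J := by positivity
      show S / Real.log n ≤ _
      rw [div_le_iff₀ hlog, add_mul, div_mul_cancel₀ _ hlog.ne']
      linarith
  rw [abs_le]
  constructor <;> linarith

end Pool.Agent.Zk36.AC
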