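import Pool.Agent.H984Q.Exact

/-!
# Almost sure Cardy formula: the crossing event around the tip and its localisation

`XC a b`: open crossing, inside the slit strip between the columns `-a` and `b+1`, from the left bank
of the slit to the column `b+1` (coordinates centred at the tip).
-/

set_option autoImplicit false

namespace Pool.Agent.Zk36.AC

open Pool.Agent.H988R2.Perc hiding X
open Pool.Agent.H31C Pool.Agent.H492E Pool.Agent.H984Q Finset MeasureTheory

/-- open edges of the slit strip -/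
def CAdj (a b : ℕ) (η : Conf) (x y : ℤ × ℤ) : Prop :=
  OpenAdj η x y ∧ -(a : ℤ) ≤ x.1 - x.2 ∧ x.1 - x.2 ≤ b + 1 ∧ -(a : ℤ) ≤ y.1 - y.2 ∧
    y.1 - y.2 ≤ b + 1 ∧ ¬ Cut x y

/-- the left bank is joined to the column `b+1` -/
def XC (a b : ℕ) : Set Conf :=
  {η | ∃ x y : ℤ × ℤ, x.1 - x.2 = 0 ∧ 0 ≤ x.1 + x.2 ∧ y.1 - y.2 = (b : ℤ) + 1 ∧
    Relation.ReflTransGen (CAdj a b η) x y}

/-- the translation of vertices -/
def tv (k : ℤ) (x : ℤ × ℤ) : ℤ × ℤ := (x.1 + (k + 1), x.2 - k)

theorem slit_iff (k b : ℕ) (ω : Conf) (x y : ℤ × ℤ) :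
    SlitAdj (2 * k + 1) (2 * k + 1 + b + 1) ω (tv k x) (tv k y) ↔ CAdj (2 * k + 1) b (tr k ω) x y := by
  unfold SlitAdj CAdj Cut
  rw [← open_tr k ω x y]
  unfold tv
  simp only
  push_cast
  constructor
  · rintro ⟨h0, h1, h2, h3, h4, h5⟩
    refine ⟨h0, by omega, by omega, by omega, by omega, fun hc => h5 ?_⟩
    obtain ⟨c1, c2, c3⟩ := hc
    exact ⟨by omega, by omega, by omega⟩
  · rintro ⟨h0, h1, h2, h3, h4, h5⟩
    refine ⟨h0, by omega, by omega, by omega, by omega, fun hc => h5 ?_⟩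
    obtain ⟨c1, c2, c3⟩ := hc
    exact ⟨by omega, by omega, by omega⟩

theorem cross_iff (k b : ℕ) (ω : Conf) :
    ω ∈ Cross (2 * k + 1) b ↔ tr k ω ∈ XC (2 * k + 1) b := by
  constructor
  · rintro ⟨x, y, h1, h2, h3, h4⟩
    refine ⟨(x.1 - (k + 1), x.2 + k), (y.1 - (k + 1), y.2 + k), ?_, ?_, ?_, ?_⟩
    · simp only; push_cast at h1; omega
    · simp only; omega
    · simp only; push_cast at h3; omega
    · have key : ∀ z, Relation.ReflTransGen (SlitAdj (2 * k + 1) (2 * k + 1 + b + 1) ω) x z →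
          Relation.ReflTransGen (CAdj (2 * k + 1) b (tr k ω)) (x.1 - (k + 1), x.2 + k)
            (z.1 - (k + 1), z.2 + k) := by
        intro z hz
        induction hz with
        | refl => exact Relation.ReflTransGen.refl
        | @tail w w' _ hs ih =>
          refine ih.tail ?_
          rw [← slit_iff]
          have e1 : ∀ z : ℤ × ℤ, tv k (z.1 - (k + 1), z.2 + k) = z := by
            intro z; unfold tv; ext <;> simp
          rw [e1, e1]
          exact hs
      exact key y h4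
  · rintro ⟨x, y, h1, h2, h3, h4⟩
    refine ⟨tv k x, tv k y, ?_, ?_, ?_, ?_⟩
    · unfold tv; simp only; push_cast; omega
    · unfold tv; simp only; omega
    · unfold tv; simp only; push_cast; omega
    · have key : ∀ z, Relation.ReflTransGen (CAdj (2 * k + 1) b (tr k ω)) x z →
          Relation.ReflTransGen (SlitAdj (2 * k + 1) (2 * k + 1 + b + 1) ω) (tv k x) (tv k z) := by
        intro z hz
        induction hz with
        | refl => exact Relation.ReflTransGen.refl
        | @tail w w' _ hs ih =>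
          refine ih.tail ?_
          rw [slit_iff]
          exact hs
      exact key y h4

theorem right_XC (k b : ℕ) (hb : Odd b) : RightFirst (2 * k + 1) b ⊆ XC (2 * k + 1) b := by
  intro η h
  have e : tr k (fun e => η (e.1 - (k + 1), e.2.1 + k, e.2.2)) = η := by
    funext e
    unfold tr
    simp
  rw [← e] at h ⊢
  exact (cross_iff k b _).1 (right_sub k b hb _ h)

/-! ## restriction to a set of edges -/

open Classical in
/-- close the edges outside `S` -/
noncomputable def rs (S : Set Edge) (η : Conf) : Conf := fun e => if e ∈ S then η e else false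

/-- sup norm -/
def nm (x : ℤ × ℤ) : ℤ := max |x.1| |x.2|

/-- the edges whose base vertex has norm in `(r, R]` -/
def SR (r R : ℤ) : Set Edge := {e | r < nm (e.1, e.2.1) ∧ nm (e.1, e.2.1) ≤ R}

theorem open_mono {η η' : Conf} (h : ∀ e, η' e = true → η e = true) {x y : ℤ × ℤ}
    (hx : OpenAdj η' x y) : OpenAdj η x y := by
  rcases hx with h1 | h1 | h1 | h1
  · exact Or.inl ⟨h1.1, h _ h1.2⟩
  · exact Or.inr (Or.inl ⟨h1.1, h _ h1.2⟩)
  · exact Or.inr (Or.inr (Or.inl ⟨h1.1, h _ h1.2⟩))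
  · exact Or.inr (Or.inr (Or.inr ⟨h1.1, h _ h1.2⟩))

theorem rs_le (S : Set Edge) (η : Conf) (e : Edge) (h : rs S η e = true) : η e = true := by
  unfold rs at h
  split_ifs at h with h1
  exact h

theorem XC_mono {a b : ℕ} {η η' : Conf} (h : ∀ e, η' e = true → η e = true)
    (hx : η' ∈ XC a b) : η ∈ XC a b := by
  obtain ⟨x, y, h1, h2, h3, h4⟩ := hx
  refine ⟨x, y, h1, h2, h3, ?_⟩
  have h5 : CAdj a b η' ≤ CAdj a b η := fun u v huv => ⟨open_mono h huv.1, huv.2⟩
  exact Relation.ReflTransGen.mono h5 _ _ h4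

/-- an open step uses an edge of `S` or one of its ends is far or near -/
theorem open_rs (r R : ℤ) (η : Conf) {x y : ℤ × ℤ} (h : OpenAdj η x y) :
    OpenAdj (rs (SR r R) η) x y ∨ (nm x ≤ r ∨ R < nm x) ∨ (nm y ≤ r ∨ R < nm y) := by
  classical
  have key : ∀ (z : ℤ × ℤ) (c : Bool), η (z.1, z.2, c) = true →
      rs (SR r R) η (z.1, z.2, c) = true ∨ (nm z ≤ r ∨ R < nm z) := by
    intro z c hz
    by_cases h1 : (z.1, z.2, c) ∈ SR r R
    · left
      unfold rs
      rw [if_pos h1]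
      exact hz
    · right
      unfold SR at h1
      simp only [Set.mem_setOf_eq, not_and, not_le] at h1
      by_cases h2 : nm z ≤ r
      · exact Or.inl h2
      · exact Or.inr (h1 (not_le.1 h2))
  rcases h with h1 | h1 | h1 | h1
  · rcases key x false h1.2 with h2 | h2
    · exact Or.inl (Or.inl ⟨h1.1, h2⟩)
    · exact Or.inr (Or.inl h2)
  · rcases key y false h1.2 with h2 | h2
    · exact Or.inl (Or.inr (Or.inl ⟨h1.1, h2⟩))
    · exact Or.inr (Or.inr h2)
  · rcases key x true h1.2 with h2 | h2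
    · exact Or.inl (Or.inr (Or.inr (Or.inl ⟨h1.1, h2⟩)))
    · exact Or.inr (Or.inl h2)
  · rcases key y true h1.2 with h2 | h2
    · exact Or.inl (Or.inr (Or.inr (Or.inr ⟨h1.1, h2⟩)))
    · exact Or.inr (Or.inr h2)

theorem open_symm {η : Conf} {x y : ℤ × ℤ} (h : OpenAdj η x y) : OpenAdj η y x := by
  rcases h with h1 | h1 | h1 | h1
  · exact Or.inr (Or.inl h1)
  · exact Or.inl h1
  · exact Or.inr (Or.inr (Or.inr h1))
  · exact Or.inr (Or.inr (Or.inl h1))

/-- open connection -/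
def OC (η : Conf) (x y : ℤ × ℤ) : Prop := Relation.ReflTransGen (OpenAdj η) x y

theorem OC_symm {η : Conf} {x y : ℤ × ℤ} (h : OC η x y) : OC η y x := by
  unfold OC at *
  induction h with
  | refl => exact Relation.ReflTransGen.refl
  | tail _ hs ih => exact Relation.ReflTransGen.head (open_symm hs) ih

theorem CAdj_OC {a b : ℕ} {η : Conf} {x y : ℤ × ℤ} (h : Relation.ReflTransGen (CAdj a b η) x y) :
    OC η x y := by
  have h5 : CAdj a b η ≤ OpenAdj η := fun u v huv => huv.1
  exact Relation.ReflTransGen.mono h5 _ _ h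

theorem path_split (a b : ℕ) (r R : ℤ) (η : Conf) {x y : ℤ × ℤ}
    (h : Relation.ReflTransGen (CAdj a b η) x y) :
    Relation.ReflTransGen (CAdj a b (rs (SR r R) η)) x y ∨
      ∃ z, (nm z ≤ r ∨ R < nm z) ∧ Relation.ReflTransGen (CAdj a b η) x z ∧
        Relation.ReflTransGen (CAdj a b η) z y := by
  induction h with
  | refl => exact Or.inl Relation.ReflTransGen.refl
  | @tail w w' hw hs ih =>
    rcases ih with h1 | ⟨z, h1, h2, h3⟩
    · rcases open_rs r R η hs.1 with h4 | h4 | h4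
      · exact Or.inl (h1.tail ⟨h4, hs.2⟩)
      · exact Or.inr ⟨w, h4, hw, Relation.ReflTransGen.single hs⟩
      · exact Or.inr ⟨w', h4, hw.tail hs, Relation.ReflTransGen.refl⟩
    · exact Or.inr ⟨z, h1, h2, h3.tail hs⟩

theorem open_dist {η : Conf} {x y : ℤ × ℤ} (h : OpenAdj η x y) :
    (y.1 = x.1 + 1 ∧ y.2 = x.2) ∨ (x.1 = y.1 + 1 ∧ x.2 = y.2) ∨ (y.1 = x.1 ∧ y.2 = x.2 + 1) ∨
      (x.1 = y.1 ∧ x.2 = y.2 + 1) := by
  rcases h with h1 | h1 | h1 | h1
  · left; rw [h1.1]; simp
  · right; left; rw [h1.1]; simp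
  · right; right; left; rw [h1.1]; simp
  · right; right; right; rw [h1.1]; simp

/-- a crossing path visits a vertex near the tip -/
theorem visit (a b : ℕ) (η : Conf) {x y : ℤ × ℤ} (hx : x.1 - x.2 = 0) (hx0 : 0 ≤ x.1 + x.2)
    (hy : 0 < y.1 - y.2) (h : Relation.ReflTransGen (CAdj a b η) x y) :
    ∃ w : ℤ × ℤ, |w.1 + w.2| ≤ 1 ∧ -(a : ℤ) ≤ w.1 - w.2 ∧ w.1 - w.2 ≤ b + 1 ∧
      Relation.ReflTransGen (CAdj a b η) x w ∧ Relation.ReflTransGen (CAdj a b η) w y := by
  have key : ∀ z, Relation.ReflTransGen (CAdj a b η) x z →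
      (∃ w : ℤ × ℤ, |w.1 + w.2| ≤ 1 ∧ -(a : ℤ) ≤ w.1 - w.2 ∧ w.1 - w.2 ≤ b + 1 ∧
        Relation.ReflTransGen (CAdj a b η) x w ∧ Relation.ReflTransGen (CAdj a b η) w z) ∨
      (2 ≤ z.1 + z.2 ∧ z.1 - z.2 ≤ 0) := by
    intro z hz
    induction hz with
    | refl =>
      by_cases h1 : x.1 + x.2 ≤ 1
      · left
        refine ⟨x, ?_, by omega, by omega, Relation.ReflTransGen.refl, Relation.ReflTransGen.refl⟩
        rw [abs_le]; omega
      · right; omega
    | @tail w w' hw hs ih =>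
      rcases ih with ⟨v, h1, h2, h3, h4, h5⟩ | ⟨h1, h2⟩
      · exact Or.inl ⟨v, h1, h2, h3, h4, h5.tail hs⟩
      · by_cases h3 : 2 ≤ w'.1 + w'.2
        · right
          refine ⟨h3, ?_⟩
          by_contra h4
          push Not at h4
          apply hs.2.2.2.2.2
          unfold Cut
          omega
        · left
          have h4 := open_dist hs.1
          refine ⟨w', ?_, hs.2.2.2.1, hs.2.2.2.2.1, hw.tail hs, Relation.ReflTransGen.refl⟩
          rw [abs_le]
          omega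
  rcases key y h with h1 | ⟨-, h2⟩
  · exact h1
  · omega

theorem nm_le {x : ℤ × ℤ} {r : ℤ} : nm x ≤ r ↔ |x.1| ≤ r ∧ |x.2| ≤ r := max_le_iff

theorem le_nm {x : ℤ × ℤ} {r : ℤ} : r ≤ nm x ↔ r ≤ |x.1| ∨ r ≤ |x.2| := le_max_iff

/-- an open path from the box of radius `r` to distance `R` -/
def Arm (r R : ℤ) : Set Conf := {η | ∃ x y : ℤ × ℤ, nm x ≤ r ∧ R ≤ nm y ∧ OC η x y}

/-- **Localisation.** The crossing event is decided by the edges in `SR r R` unless there is an open
arm between the scales `r` and `(b+1)/2`, or between the scales `a + b + 2` and `R`. -/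
theorem localise (a b : ℕ) (r R ρ : ℤ) (η : Conf) (hρ : 2 * ρ ≤ (b : ℤ) + 1)
    (h1 : η ∉ Arm r ρ) (h2 : η ∉ Arm (a + b + 2) R) :
    η ∈ XC a b ↔ rs (SR r R) η ∈ XC a b := by
  constructor
  · rintro ⟨x, y, hx, hx0, hy, h⟩
    rcases path_split a b r R η h with h3 | ⟨z, h3, h4, h5⟩
    · exact ⟨x, y, hx, hx0, hy, h3⟩
    · exfalso
      rcases h3 with h3 | h3
      · apply h1
        refine ⟨z, y, h3, ?_, CAdj_OC h5⟩
        rw [le_nm]
        by_contra hc
        push Not at hc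
        rw [abs_lt, abs_lt] at hc
        omega
      · apply h2
        obtain ⟨w, hw1, hw2, hw3, hw4, -⟩ := visit a b η hx hx0 (by omega) h
        refine ⟨w, z, ?_, h3.le, ?_⟩
        · rw [abs_le] at hw1
          rw [nm_le, abs_le, abs_le]
          omega
        · exact (OC_symm (CAdj_OC hw4)).trans (CAdj_OC h4)
  · exact XC_mono (rs_le _ η)

end Pool.Agent.Zk36.AC
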