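import Pool.Agent.Zk36.AC.Arr
import Pool.Agent.Zk36.AC.Arm

/-!
# Almost sure Cardy formula: assembly
-/

set_option autoImplicit false

namespace Pool.Agent.Zk36.AC

open Pool.Agent.H988R2.Perc (Conf OpenAdj perc coin Edge)
open Pool.Agent.H984Q (RightFirst)
open Pool.Agent.H31C (S_Exact)
open Pool.Agent.H980R4.Rate (F F_one)
open Finset MeasureTheory ProbabilityTheory Filter Topology

/-! ## sums of inverses -/

theorem sum_split (f : ℕ → ℝ) {t J : ℕ} (h : t ≤ J) :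
    ∑ L ∈ Finset.Ico (2 ^ t) (2 ^ J), f L = ∑ j ∈ Finset.Ico t J, ∑ L ∈ blk j, f L := by
  induction J, h using Nat.le_induction with
  | base => simp
  | succ J hJ ih =>
    rw [Finset.sum_Ico_succ_top hJ, ← ih]
    unfold blk
    rw [Finset.sum_Ico_consecutive]
    · exact Nat.pow_le_pow_right (by norm_num) hJ
    · exact Nat.pow_le_pow_right (by norm_num) (by omega)

theorem sum_low (t : ℕ) : ∑ L ∈ (Finset.Ico 1 (2 ^ t) : Finset ℕ), (L : ℝ)⁻¹ ≤ t := by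
  have h := sum_split (fun L : ℕ => (L : ℝ)⁻¹) (Nat.zero_le t)
  rw [pow_zero] at h
  rw [h]
  refine (Finset.sum_le_card_nsmul _ _ 1 fun j _ => sum_inv_blk j).trans ?_
  rw [Nat.card_Ico]
  simp

theorem sum_three (f : ℕ → ℝ) {t J n : ℕ} (h : t ≤ J) (hn : 2 ^ J ≤ n) :
    ∑ L ∈ Finset.Icc 1 n, f L = ∑ L ∈ Finset.Ico 1 (2 ^ t), f L +
      ∑ j ∈ Finset.Ico t J, ∑ L ∈ blk j, f L + ∑ L ∈ Finset.Ico (2 ^ J) (n + 1), f L := by
  rw [← sum_split f h, Finset.sum_Ico_consecutive _ Nat.one_le_two_pow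
    (Nat.pow_le_pow_right (by norm_num) h), Finset.sum_Ico_consecutive _ Nat.one_le_two_pow (by omega)]
  congr 1

theorem sum_top {J n : ℕ} (hn : n < 2 ^ (J + 1)) :
    ∑ L ∈ Finset.Ico (2 ^ J) (n + 1), (L : ℝ)⁻¹ ≤ 1 := by
  refine le_trans ?_ (sum_inv_blk J)
  refine Finset.sum_le_sum_of_subset_of_nonneg ?_ fun L _ _ => by positivity
  unfold blk
  exact Finset.Ico_subset_Ico_right (by omega)

theorem harm_bounds {n : ℕ} (hn : 1 ≤ n) : Real.log n ≤ ∑ L ∈ Finset.Icc 1 n, (L : ℝ)⁻¹ ∧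
    ∑ L ∈ Finset.Icc 1 n, (L : ℝ)⁻¹ ≤ 1 + Real.log n := by
  have h1 := log_add_one_le_harmonic n
  have h2 := harmonic_le_one_add_log n
  rw [harmonic_eq_sum_Icc] at h1 h2
  push_cast at h1 h2
  have h3 : (0:ℝ) < n := by exact_mod_cast hn
  have h4 : Real.log n ≤ Real.log (n + 1) := Real.log_le_log h3 (by linarith)
  exact ⟨h4.trans h1, h2⟩

/-! ## parameters -/

/-- `⌊log₂ J⌋ + 1` -/
def el (J : ℕ) : ℕ := Nat.log 2 J + 1

theorem lt_el (J : ℕ) : J < 2 ^ el J := Nat.lt_pow_succ_log_self (by norm_num) J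

theorem el_pos (J : ℕ) : 1 ≤ el J := Nat.succ_pos _

/-- grid -/
def gr (J : ℕ) : ℕ := 2 ^ (3 * el J)

theorem gr_pos (J : ℕ) : 0 < gr J := by unfold gr; positivity

/-- number of blocks of a class -/
def nb (K J : ℕ) : ℕ := J / (2 * (K * el J)) + 1

/-- the threshold -/
noncomputable def thr (C : ℝ) (K J : ℕ) : ℝ :=
  2 * (K * el J : ℕ) * √(5 * el J * nb K J) + 2 * C

/-- the bad event -/
def Bad (C : ℝ) (K J : ℕ) : Set Conf :=
  {η | ∃ i < gr J, thr C K J < |∑ j ∈ Finset.Ico (K * el J) J,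
    (fB (aa (gr J) i) (bb (gr J) i) j η - ∫ ω, fB (aa (gr J) i) (bb (gr J) i) j ω ∂perc)|}

theorem big_L {K J j L : ℕ} (hK : 10 ≤ K) (hj : K * el J ≤ j) (hL : L ∈ blk j) : 4 * gr J ≤ L := by
  refine le_trans ?_ (mem_blk.1 hL).1
  unfold gr
  have h1 := el_pos J
  have h2 : 3 * el J + 2 ≤ j := by nlinarith
  calc 4 * 2 ^ (3 * el J) = 2 ^ (3 * el J + 2) := by rw [pow_add]; ring
    _ ≤ 2 ^ j := Nat.pow_le_pow_right (by norm_num) h2

theorem del_small {C c : ℝ} (h : ArmB C c) {K J : ℕ} (hK : 10 ≤ K) (hc : 7 ≤ c * (K - 4)) :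
    del C c (K * el J) (3 * el J + 1) ≤ 2 * C * ((2:ℝ) ^ (7 * el J))⁻¹ := by
  unfold del
  have h0 := h.1
  refine mul_le_mul_of_nonneg_left ?_ (by positivity)
  rw [← Real.rpow_natCast, ← Real.rpow_neg (by norm_num)]
  refine Real.rpow_le_rpow_of_exponent_le (by norm_num) ?_
  have h1 := el_pos J
  have h2 : 3 * el J + 1 ≤ K * el J := by nlinarith
  rw [Nat.cast_sub h2]
  push_cast
  have h3 : (1:ℝ) ≤ el J := by exact_mod_cast h1
  have h4 := h.2.1
  have h5 : 7 * (el J : ℝ) ≤ c * (K - 4) * el J := mul_le_mul_of_nonneg_right hc (by linarith)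
  nlinarith

theorem J_del {C c : ℝ} (h : ArmB C c) {K J : ℕ} (hK : 10 ≤ K) (hc : 7 ≤ c * (K - 4)) :
    J * del C c (K * el J) (3 * el J + 1) ≤ 2 * C * ((2:ℝ) ^ (6 * el J))⁻¹ := by
  have h1 : (J:ℝ) ≤ 2 ^ el J := by exact_mod_cast (lt_el J).le
  have h2 := del_small h hK hc (J := J)
  have h0 := h.1
  calc J * del C c (K * el J) (3 * el J + 1) ≤ 2 ^ el J * (2 * C * ((2:ℝ) ^ (7 * el J))⁻¹) :=
        mul_le_mul h1 h2 (del_nonneg h _ _) (by positivity)
    _ = 2 * C * ((2:ℝ) ^ (6 * el J))⁻¹ := by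
        rw [show 7 * el J = 6 * el J + el J by ring, pow_add]
        field_simp

theorem bad_bound {C c : ℝ} (h : ArmB C c) {K : ℕ} (hK : 10 ≤ K) (hc : 7 ≤ c * (K - 4)) {J : ℕ}
    (hJ : 1 ≤ J) : perc.real (Bad C K J) ≤ (2 * C + 4 * K) / (J:ℝ) ^ 2 := by
  have h0 := h.1
  have he := el_pos J
  have hnb : (0:ℝ) < nb K J := by exact_mod_cast Nat.succ_pos _
  have key : ∀ i < gr J, perc.real {η | thr C K J < |∑ j ∈ Finset.Ico (K * el J) J,
      (fB (aa (gr J) i) (bb (gr J) i) j η - ∫ ω, fB (aa (gr J) i) (bb (gr J) i) j ω ∂perc)|} ≤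
      2 * C * ((2:ℝ) ^ (6 * el J))⁻¹ + 4 * K * ((2:ℝ) ^ (9 * el J))⁻¹ := by
    intro i hi
    have h1 : ∀ j, K * el J ≤ j → ∀ L ∈ blk j, 2 * 2 ^ (j - (3 * el J + 1)) ≤ bb (gr J) i L + 1 := by
      intro j hj L hL
      have h2 := bb_ge (gr_pos J) hi (big_L hK hj hL)
      have h3 := (mem_blk.1 hL).1
      have h4 : 3 * el J + 1 ≤ j := le_trans (by nlinarith) hj
      have h5 : 2 ^ j = gr J * (2 * 2 ^ (j - (3 * el J + 1))) := by
        unfold gr
        rw [← mul_assoc, ← pow_succ, ← pow_add]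
        congr 1
        omega
      have h6 : gr J * (2 * 2 ^ (j - (3 * el J + 1))) ≤ gr J * (bb (gr J) i L + 1) := by
        rw [← h5]
        exact h3.trans h2
      exact Nat.le_of_mul_le_mul_left h6 (gr_pos J)
    have h2 := dev h (a := aa (gr J) i) (b := bb (gr J) i) (t := K * el J) (g := 3 * el J + 1)
      (J := J) (N := nb K J) (by omega) (by nlinarith) h1 (fun L => sum_le (gr_pos J) hi.le L)
      (fun L => meas_XC (aa_odd _ _ _)) le_rfl (√(5 * el J * nb K J)) (Real.sqrt_nonneg _)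
    have h3 := J_del h hK hc (J := J)
    have h4 : ((2:ℝ) ^ (6 * el J))⁻¹ ≤ 1 := by
      apply inv_le_one_of_one_le₀
      exact one_le_pow₀ (by norm_num)
    have h5 : J * del C c (K * el J) (3 * el J + 1) ≤ 2 * C := by
      refine h3.trans ?_
      nlinarith
    have h6 : perc.real {η | thr C K J < |∑ j ∈ Finset.Ico (K * el J) J,
        (fB (aa (gr J) i) (bb (gr J) i) j η - ∫ ω, fB (aa (gr J) i) (bb (gr J) i) j ω ∂perc)|} ≤
        perc.real {η | 2 * ((K * el J : ℕ) : ℝ) * √(5 * el J * nb K J) +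
        J * del C c (K * el J) (3 * el J + 1) < |∑ j ∈ Finset.Ico (K * el J) J,
        (fB (aa (gr J) i) (bb (gr J) i) j η - ∫ ω, fB (aa (gr J) i) (bb (gr J) i) j ω ∂perc)|} := by
      refine measureReal_mono ?_
      intro η hη
      simp only [Set.mem_ofPred_eq] at hη ⊢
      unfold thr at hη
      linarith
    refine h6.trans (h2.trans (add_le_add h3 ?_))
    rw [Real.sq_sqrt (by positivity)]
    have h7 : -2 * (5 * (el J : ℝ) * nb K J) / nb K J = -(10 * (el J : ℝ)) := by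
      field_simp
      ring
    rw [h7]
    have h8 : Real.exp (-(10 * (el J : ℝ))) ≤ ((2:ℝ) ^ (10 * el J))⁻¹ := by
      rw [Real.exp_neg]
      refine inv_anti₀ (by positivity) ?_
      have e1 : Real.exp (10 * (el J : ℝ)) = Real.exp 1 ^ (10 * el J) := by
        rw [← Real.exp_nat_mul]
        congr 1
        push_cast
        ring
      rw [e1]
      refine pow_le_pow_left₀ (by norm_num) ?_ _
      have := Real.add_one_le_exp (1:ℝ)
      linarith
    have h9 : (el J : ℝ) ≤ 2 ^ el J := by exact_mod_cast (Nat.lt_two_pow_self).le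
    have h10 : (0:ℝ) ≤ K := Nat.cast_nonneg K
    push_cast
    calc 2 * ((K:ℝ) * el J) * (2 * Real.exp (-(10 * (el J : ℝ))))
        ≤ 2 * ((K:ℝ) * 2 ^ el J) * (2 * ((2:ℝ) ^ (10 * el J))⁻¹) := by gcongr
      _ = 4 * K * ((2:ℝ) ^ (9 * el J))⁻¹ := by
        rw [show 10 * el J = 9 * el J + el J by ring, pow_add]
        field_simp
        ring
  have hsub : Bad C K J ⊆ ⋃ i ∈ Finset.range (gr J), {η | thr C K J < |∑ j ∈ Finset.Ico (K * el J) J,
      (fB (aa (gr J) i) (bb (gr J) i) j η - ∫ ω, fB (aa (gr J) i) (bb (gr J) i) j ω ∂perc)|} := by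
    rintro η ⟨i, hi, hη⟩
    simp only [Set.mem_iUnion]
    exact ⟨i, Finset.mem_range.2 hi, hη⟩
  refine (measureReal_mono hsub (measure_ne_top _ _)).trans
    ((measureReal_biUnion_finset_le _ _).trans ?_)
  refine (Finset.sum_le_card_nsmul _ _ _ fun i hi => key i (Finset.mem_range.1 hi)).trans ?_
  rw [Finset.card_range, nsmul_eq_mul]
  have hJ0 : (0:ℝ) < J := by exact_mod_cast hJ
  have h1 : (J:ℝ) ≤ 2 ^ el J := by exact_mod_cast (lt_el J).le
  have h2 : (J:ℝ) ^ 2 ≤ 2 ^ (3 * el J) := by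
    calc (J:ℝ) ^ 2 ≤ (2 ^ el J) ^ 2 := by gcongr
      _ = 2 ^ (2 * el J) := by rw [← pow_mul]; congr 1; ring
      _ ≤ 2 ^ (3 * el J) := pow_le_pow_right₀ (by norm_num) (by omega)
  have h3 : ((gr J : ℕ) : ℝ) * (2 * C * ((2:ℝ) ^ (6 * el J))⁻¹ + 4 * K * ((2:ℝ) ^ (9 * el J))⁻¹) ≤
      (2 * C + 4 * K) * ((2:ℝ) ^ (3 * el J))⁻¹ := by
    unfold gr
    push_cast
    have e1 : (2:ℝ) ^ (3 * el J) * ((2:ℝ) ^ (6 * el J))⁻¹ = ((2:ℝ) ^ (3 * el J))⁻¹ := by
      rw [show 6 * el J = 3 * el J + 3 * el J by ring, pow_add]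
      field_simp
    have e2 : (2:ℝ) ^ (3 * el J) * ((2:ℝ) ^ (9 * el J))⁻¹ ≤ ((2:ℝ) ^ (3 * el J))⁻¹ := by
      rw [← e1]
      refine mul_le_mul_of_nonneg_left ?_ (by positivity)
      refine inv_anti₀ (by positivity) ?_
      exact pow_le_pow_right₀ (by norm_num) (by omega)
    have h10 : (0:ℝ) ≤ K := Nat.cast_nonneg K
    calc (2:ℝ) ^ (3 * el J) * (2 * C * ((2:ℝ) ^ (6 * el J))⁻¹ + 4 * K * ((2:ℝ) ^ (9 * el J))⁻¹)
        = 2 * C * ((2:ℝ) ^ (3 * el J) * ((2:ℝ) ^ (6 * el J))⁻¹) +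
          4 * K * ((2:ℝ) ^ (3 * el J) * ((2:ℝ) ^ (9 * el J))⁻¹) := by ring
      _ ≤ 2 * C * ((2:ℝ) ^ (3 * el J))⁻¹ + 4 * K * ((2:ℝ) ^ (3 * el J))⁻¹ := by
          rw [e1]
          gcongr
      _ = _ := by ring
  refine h3.trans ?_
  rw [div_eq_mul_inv]
  refine mul_le_mul_of_nonneg_left ?_ (by positivity)
  exact inv_anti₀ (by positivity) h2

theorem ae_good_scales {C c : ℝ} (h : ArmB C c) {K : ℕ} (hK : 10 ≤ K) (hc : 7 ≤ c * (K - 4)) :
    ∀ᵐ ω ∂perc, ∀ᶠ J in atTop, ω ∉ Bad C K J := by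
  have h0 := h.1
  apply ae_eventually_notMem
  have h1 : Summable (fun J : ℕ => (2 * C + 4 * K) / (J:ℝ) ^ 2) := by
    have := (Real.summable_one_div_nat_pow (p := 2)).2 (by norm_num)
    have h2 := this.mul_left (2 * C + 4 * (K:ℝ))
    refine h2.congr fun J => ?_
    rw [mul_one_div]
  have h2 : Summable (fun J : ℕ => perc.real (Bad C K J)) := by
    rw [← summable_nat_add_iff 1]
    refine Summable.of_nonneg_of_le (fun J => measureReal_nonneg) (fun J => ?_)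
      ((summable_nat_add_iff 1).2 h1)
    exact bad_bound h hK hc (by omega)
  have h3 := h2.tsum_ofReal_ne_top
  have h4 : ∀ J, ENNReal.ofReal (perc.real (Bad C K J)) = perc (Bad C K J) := fun J =>
    ENNReal.ofReal_toReal (measure_ne_top _ _)
  simp_rw [h4] at h3
  exact h3

end Pool.Agent.Zk36.AC
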